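import Pool.Agent.Y670.SX.Int

set_option autoImplicit false

/-!
Project SX (helper969), job SX-TAY: the integral over `t` and the shifts.
-/

namespace Pool.Agent.Y670.SX

open Finset Filter Topology MeasureTheory Complex
open Pool.Agent.Y969.GP (ff ht lam FR PX cr V mB co PS)
open Pool.Agent.H306R2.SM (om cl)
open Pool.Agent.Y969.SM

theorem om_nn (κ : ℕ) {δ t : ℝ} (hδ : 0 ≤ δ) (ht : 0 ≤ t) : 0 ≤ om κ δ t := by
  unfold om
  positivity

theorem om_ct (κ : ℕ) (δ : ℝ) : Continuous (om κ δ) := by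
  unfold om
  fun_prop

/-- the hypotheses on the parameters -/
structure Hy (k n κ X Z : ℕ) (T U L E EP K : ℝ) : Prop where
  ort : S_ORT
  hT : 2 * Real.pi ≤ T
  hL1 : 1 ≤ L
  hZ : 1 ≤ Z
  hZU : 4 * (Z : ℝ) ^ 3 ≤ U
  hZL : Real.log Z ≤ L
  hLc : ∀ c : ℝ, 0 ≤ c → c ≤ U →
      Real.log ((T + c) / (2 * Real.pi)) + 2 * Real.eulerMascheroniConstant ≤ 2 * L
  hE0 : 0 ≤ E
  hE1 : (Z : ℝ) ^ 2 * E * L ^ n ≤ 1
  hE : ∀ u : ℝ, T / 8 ≤ u → u ≤ 8 * T + U → ∀ p ∈ FR Z, |√(ht p) * cr X p u -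
      (Real.log (u / (2 * Real.pi * ht p)) + 2 * Real.eulerMascheroniConstant)| ≤ E
  hP0 : 0 ≤ EP
  hP1 : (Z : ℝ) ^ 2 * EP ≤ T
  hP : ∀ u : ℝ, T / 8 ≤ u → u ≤ 8 * T + U → ∀ p ∈ FR Z, |√(ht p) * cr X p u| ≤ EP
  hS : (n + 2) * (2 * L) * (Z : ℝ) ^ 3 ≤ T
  hF : Continuous (F0 k T)
  hJ : IntegrableOn (fun t => om κ (κ / T) t * |F0 k T t|) (Set.Ioi 0)
  hK : 0 < K
  h1 : ∀ t : ℝ, 0 < t → ∀ e ≤ n * n + n + 1,
    |(t - T) / T| ^ e * om (2 * κ) ((2 * κ : ℕ) / T) t ≤ K / L ^ e * om κ (κ / T) t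
  h2 : ∀ t : ℝ, 0 < t → T / 2 ≤ |t - T| →
    |(t - T) / T| ^ (n * n) * om (2 * κ) ((2 * κ : ℕ) / T) t ≤ om κ (κ / T) t / T ^ (n + 1)
  hA : 2 * 4 ^ (n * n) * L ≤ T

namespace Hy

variable {k n κ X Z : ℕ} {T U L E EP K : ℝ}

theorem T0 (h : Hy k n κ X Z T U L E EP K) : 0 < T := by
  have := Real.pi_pos
  linarith [h.hT]

theorem U0 (h : Hy k n κ X Z T U L E EP K) : 0 ≤ U := le_trans (by positivity) h.hZU

theorem J0 (h : Hy k n κ X Z T U L E EP K) {t : ℝ} (ht : 0 < t) :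
    0 ≤ om κ (κ / T) t * |F0 k T t| :=
  mul_nonneg (om_nn _ (div_nonneg (Nat.cast_nonneg _) h.T0.le) ht.le) (abs_nonneg _)

theorem om2_0 (h : Hy k n κ X Z T U L E EP K) {t : ℝ} (ht : 0 < t) :
    0 ≤ om (2 * κ) ((2 * κ : ℕ) / T) t :=
  om_nn _ (div_nonneg (Nat.cast_nonneg _) h.T0.le) ht.le

/-- the weight -/
theorem W_le (h : Hy k n κ X Z T U L E EP K) {t : ℝ} (ht : 0 < t) {e : ℕ}
    (he : e ≤ n * n + n + 1) :
    |(t - T) / T| ^ e * |om (2 * κ) ((2 * κ : ℕ) / T) t * F0 k T t| ≤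
      K / L ^ e * (om κ (κ / T) t * |F0 k T t|) := by
  have h1 := h.h1 t ht e he
  rw [abs_mul, abs_of_nonneg (h.om2_0 ht), ← mul_assoc, ← mul_assoc]
  exact mul_le_mul_of_nonneg_right h1 (abs_nonneg _)

theorem KL (h : Hy k n κ X Z T U L E EP K) (e : ℕ) : K / L ^ e ≤ K :=
  div_le_self h.hK.le (one_le_pow₀ h.hL1)

/-- general bound of the expanded factor -/
theorem Sx_le (h : Hy k n κ X Z T U L E EP K) {t c : ℝ} (hc : 0 ≤ c) (hcU : c ≤ U) :
    ‖Sx n Z T t c‖ ≤ T * (1 + 2 * |(t - T) / T|) ^ n := by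
  have hx0 := abs_nonneg ((t - T) / T)
  have hL1 := h.hL1
  have hb : ∀ i : Fin (n + 2), |(t - T) / T| ^ (ke i) ≤ (1 + 2 * |(t - T) / T|) ^ n := fun i => by
    calc |(t - T) / T| ^ (ke i) ≤ (1 + 2 * |(t - T) / T|) ^ (ke i) := by
          gcongr
          linarith
      _ ≤ (1 + 2 * |(t - T) / T|) ^ n := pow_le_pow_right₀ (by linarith) (ke_le i)
  refine (norm_Sx_le h.hT hc (h.hLc c hc hcU) hb).trans ?_
  calc ∑ i : Fin (n + 2), (if (i : ℕ) = 0 then 2 * L else 1) * (1 + 2 * |(t - T) / T|) ^ n *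
        ‖KK Z i (t + c)‖ ≤ ∑ _i : Fin (n + 2), (2 * L) * (1 + 2 * |(t - T) / T|) ^ n *
          (Z : ℝ) ^ 3 := by
        refine sum_le_sum fun i _ => ?_
        have h1 : (if (i : ℕ) = 0 then 2 * L else 1) ≤ 2 * L := by
          split_ifs <;> linarith
        have h2 := norm_KK_le i Z (t + c)
        gcongr
    _ = ((n + 2) * (2 * L) * (Z : ℝ) ^ 3) * (1 + 2 * |(t - T) / T|) ^ n := by
        rw [sum_const, card_univ, Fintype.card_fin, nsmul_eq_mul]
        push_cast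
        ring
    _ ≤ _ := mul_le_mul_of_nonneg_right h.hS (by positivity)

theorem prodS_le (h : Hy k n κ X Z T U L E EP K) {t : ℝ} {c : Fin n → ℝ}
    (hc : ∀ j, c j ∈ Set.Icc 0 U) :
    ‖∏ j, Sx n Z T t (c j)‖ ≤ T ^ n * (1 + 2 * |(t - T) / T|) ^ (n * n) := by
  rw [norm_prod]
  calc ∏ j, ‖Sx n Z T t (c j)‖ ≤ ∏ _j : Fin n, T * (1 + 2 * |(t - T) / T|) ^ n :=
        prod_le_prod (fun _ _ => norm_nonneg _) fun j _ => h.Sx_le (hc j).1 (hc j).2
    _ = _ := by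
        rw [prod_const, card_univ, Fintype.card_fin, mul_pow, ← pow_mul]

theorem PL_le (h : Hy k n κ X Z T U L E EP K) {t c : ℝ} (ht : T / 8 < t) (ht' : t ≤ 8 * T)
    (hc : 0 ≤ c) (hcU : c ≤ U) : ‖PL X Z (t + c)‖ ≤ T :=
  (norm_PL_le h.hP0 (h.hP (t + c) (by linarith) (by linarith))).trans h.hP1

theorem prodP_le (h : Hy k n κ X Z T U L E EP K) {t : ℝ} (ht : T / 8 < t) (ht' : t ≤ 8 * T)
    {c : Fin n → ℝ} (hc : ∀ j, c j ∈ Set.Icc 0 U) :
    ‖∏ j, PL X Z (t + c j)‖ ≤ T ^ n := by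
  rw [norm_prod]
  calc ∏ j, ‖PL X Z (t + c j)‖ ≤ ∏ _j : Fin n, T :=
        prod_le_prod (fun _ _ => norm_nonneg _) fun j _ => h.PL_le ht ht' (hc j).1 (hc j).2
    _ = _ := by rw [prod_const, card_univ, Fintype.card_fin]

end Hy

open Classical in
/-- the difference of the integrands -/
noncomputable def HH (k n κ X Z : ℕ) (T t : ℝ) (c : Fin n → ℝ) : ℂ :=
  ((om (2 * κ) ((2 * κ : ℕ) / T) t * F0 k T t : ℝ) : ℂ) *
    ((if T / 8 < t ∧ t ≤ 8 * T then ∏ j, PL X Z (t + c j) else 0) - ∏ j, Sx n Z T t (c j))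

namespace Hy

variable {k n κ X Z : ℕ} {T U L E EP K : ℝ}

theorem meas_HH (h : Hy k n κ X Z T U L E EP K) :
    Measurable fun q : ℝ × (Fin n → ℝ) => HH k n κ X Z T q.1 q.2 := by
  have hW : Measurable fun t => ((om (2 * κ) ((2 * κ : ℕ) / T) t * F0 k T t : ℝ) : ℂ) :=
    (Complex.continuous_ofReal.comp ((om_ct _ _).mul h.hF)).measurable
  have h1 : Measurable fun q : ℝ × (Fin n → ℝ) => ∏ j, PL X Z (q.1 + q.2 j) := by
    refine Finset.measurable_fun_prod _ fun j _ => ?_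
    have h0 : Measurable fun q : ℝ × (Fin n → ℝ) => q.1 + q.2 j := by fun_prop
    exact (measurable_PL X Z).comp h0
  have h2 : Measurable fun q : ℝ × (Fin n → ℝ) => ∏ j, Sx n Z T q.1 (q.2 j) := by
    refine Finset.measurable_fun_prod _ fun j _ => ?_
    have h0 : Measurable fun q : ℝ × (Fin n → ℝ) => (q.1, q.2 j) := by fun_prop
    have h3 := (measurable_Sx n Z T).comp h0
    exact h3
  have h3 : MeasurableSet {q : ℝ × (Fin n → ℝ) | T / 8 < q.1 ∧ q.1 ≤ 8 * T} := by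
    have : {q : ℝ × (Fin n → ℝ) | T / 8 < q.1 ∧ q.1 ≤ 8 * T} = Prod.fst ⁻¹' Set.Ioc (T / 8) (8 * T) :=
      rfl
    rw [this]
    exact measurable_fst measurableSet_Ioc
  unfold HH
  exact (hW.comp measurable_fst).mul ((Measurable.ite h3 h1 measurable_const).sub h2)

/-- a bound of the integrand for fixed `t` -/
theorem HH_le (h : Hy k n κ X Z T U L E EP K) {t : ℝ} {c : Fin n → ℝ}
    (hc : ∀ j, c j ∈ Set.Icc 0 U) :
    ‖HH k n κ X Z T t c‖ ≤ |om (2 * κ) ((2 * κ : ℕ) / T) t * F0 k T t| *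
      (2 * (T ^ n * (1 + 2 * |(t - T) / T|) ^ (n * n))) := by
  have hx0 := abs_nonneg ((t - T) / T)
  have hT0 := h.T0
  unfold HH
  rw [norm_mul, Complex.norm_real, Real.norm_eq_abs]
  refine mul_le_mul_of_nonneg_left ?_ (abs_nonneg _)
  have h1 : T ^ n ≤ T ^ n * (1 + 2 * |(t - T) / T|) ^ (n * n) := by
    refine le_mul_of_one_le_right (by positivity) (one_le_pow₀ (by linarith))
  refine (norm_sub_le _ _).trans ?_
  have h2 := h.prodS_le (t := t) hc
  have h3 : ‖(if T / 8 < t ∧ t ≤ 8 * T then ∏ j, PL X Z (t + c j) else (0 : ℂ))‖ ≤ T ^ n := by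
    split_ifs with h4
    · exact h.prodP_le h4.1 h4.2 hc
    · simp only [norm_zero]
      positivity
  linarith

theorem ae_box (n : ℕ) (U : ℝ) : ∀ᵐ c ∂(mB n 0 U), ∀ j, c j ∈ Set.Icc 0 U := by
  rw [ae_all_iff]
  intro j
  unfold mB
  exact (Measure.tendsto_eval_ae_ae (μ := fun _ : Fin n => volume.restrict (Set.Icc (0:ℝ) U))
    (i := j)).eventually (ae_restrict_mem measurableSet_Icc)

theorem fin_mB (n : ℕ) (U : ℝ) : IsFiniteMeasure (mB n 0 U) := by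
  unfold mB
  infer_instance

theorem real_mB (n : ℕ) {U : ℝ} (hU : 0 ≤ U) : (mB n 0 U).real Set.univ = U ^ n := by
  unfold mB
  rw [Measure.real, Measure.pi_univ, ENNReal.toReal_prod]
  simp [hU]

theorem int_HH (h : Hy k n κ X Z T U L E EP K) (t : ℝ) :
    Integrable (fun c => HH k n κ X Z T t c) (mB n 0 U) := by
  have := fin_mB n U
  have hm : Measurable fun c : Fin n → ℝ => HH k n κ X Z T t c := by
    have h0 : Measurable fun c : Fin n → ℝ => (t, c) := by fun_prop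
    have h1 := h.meas_HH.comp h0
    exact h1
  refine Integrable.mono' (integrable_const (|om (2 * κ) ((2 * κ : ℕ) / T) t * F0 k T t| *
      (2 * (T ^ n * (1 + 2 * |(t - T) / T|) ^ (n * n))))) hm.aestronglyMeasurable ?_
  filter_upwards [ae_box n U] with c hc using h.HH_le hc

/-- far from the centre -/
theorem far (h : Hy k n κ X Z T U L E EP K) {t : ℝ} (ht : 0 < t) (ht' : T / 2 ≤ |t - T|) :
    ∫ c, ‖HH k n κ X Z T t c‖ ∂(mB n 0 U) ≤
      (om κ (κ / T) t * |F0 k T t|) * (U ^ n * (L ^ n / L)) := by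
  have := fin_mB n U
  have hT0 := h.T0
  have hU0 := h.U0
  have hL1 := h.hL1
  have hx : 1 / 2 ≤ |(t - T) / T| := by
    rw [abs_div, abs_of_pos hT0, le_div_iff₀ hT0]
    linarith
  calc ∫ c, ‖HH k n κ X Z T t c‖ ∂(mB n 0 U)
      ≤ ∫ _c, |om (2 * κ) ((2 * κ : ℕ) / T) t * F0 k T t| *
        (2 * (T ^ n * (1 + 2 * |(t - T) / T|) ^ (n * n))) ∂(mB n 0 U) := by
        refine integral_mono_of_nonneg (ae_of_all _ fun _ => norm_nonneg _) (integrable_const _) ?_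
        filter_upwards [ae_box n U] with c hc using h.HH_le hc
    _ = U ^ n * (|om (2 * κ) ((2 * κ : ℕ) / T) t * F0 k T t| *
        (2 * (T ^ n * (1 + 2 * |(t - T) / T|) ^ (n * n)))) := by
        rw [integral_const, real_mB n hU0, smul_eq_mul]
    _ ≤ U ^ n * (|om (2 * κ) ((2 * κ : ℕ) / T) t * F0 k T t| *
        (2 * (T ^ n * (4 * |(t - T) / T|) ^ (n * n)))) := by
        gcongr
        linarith
    _ = U ^ n * (2 * 4 ^ (n * n) * T ^ n * ((|(t - T) / T| ^ (n * n) *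
        om (2 * κ) ((2 * κ : ℕ) / T) t) * |F0 k T t|)) := by
        rw [abs_mul, abs_of_nonneg (h.om2_0 ht), mul_pow]
        ring
    _ ≤ U ^ n * (2 * 4 ^ (n * n) * T ^ n * ((om κ (κ / T) t / T ^ (n + 1)) * |F0 k T t|)) := by
        have := h.h2 t ht ht'
        gcongr
    _ = (om κ (κ / T) t * |F0 k T t|) * (U ^ n * (2 * 4 ^ (n * n) / T)) := by
        field_simp
        ring
    _ ≤ (om κ (κ / T) t * |F0 k T t|) * (U ^ n * (L ^ n / L)) := by
        have h0 := h.J0 ht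
        have h5 : 2 * 4 ^ (n * n) / T ≤ L ^ n / L := by
          calc 2 * 4 ^ (n * n) / T ≤ 1 / L := by
                rw [div_le_div_iff₀ hT0 (by linarith)]
                linarith [h.hA]
            _ ≤ L ^ n / L := by
                gcongr
                exact one_le_pow₀ hL1
        gcongr

/-- near the centre -/
theorem near (h : Hy k n κ X Z T U L E EP K) {t : ℝ} (ht : 0 < t) (ht' : |t - T| ≤ T / 2) :
    ∫ c, ‖HH k n κ X Z T t c‖ ∂(mB n 0 U) ≤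
      (om κ (κ / T) t * |F0 k T t|) *
        (U ^ n * ((9 * K * n * (8 * n + 25) ^ (n - 1)) * (L ^ n / L))) := by
  have := fin_mB n U
  have hT0 := h.T0
  have hU0 := h.U0
  have hL1 := h.hL1
  have hL0 : 0 < L := by linarith
  have htT := abs_le.1 ht'
  have hcond : T / 8 < t ∧ t ≤ 8 * T := ⟨by linarith [htT.1], by linarith [htT.2]⟩
  have hx : |(t - T) / T| ≤ 1 / 2 := by
    rw [abs_div, abs_of_pos hT0, div_le_iff₀ hT0]
    linarith
  have e1 : ∀ c : Fin n → ℝ, ‖HH k n κ X Z T t c‖ = |om (2 * κ) ((2 * κ : ℕ) / T) t * F0 k T t| *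
      ‖∏ j, PL X Z (t + c j) - ∏ j, Sx n Z T t (c j)‖ := by
    intro c
    unfold HH
    rw [if_pos hcond, norm_mul, Complex.norm_real, Real.norm_eq_abs]
  simp only [e1]
  rw [integral_const_mul]
  rcases n with _ | m
  · simp
  · have hE1' : (Z : ℝ) ^ 2 * E ≤ 1 := by
      have h5 : (Z : ℝ) ^ 2 * E * 1 ≤ (Z : ℝ) ^ 2 * E * L ^ (m + 1) := by
        have := h.hE0
        gcongr
        exact one_le_pow₀ hL1
      linarith [h.hE1]
    have h6 := reg1 (X := X) m h.ort h.hZ h.hZU h.hT hL1 h.hZL h.hLc hx h.hE0 hE1'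
      fun c hc hcU => h.hE (t + c) (by linarith [hcond.1]) (by linarith [hcond.2])
    have hE2 : (Z : ℝ) ^ 2 * E ≤ 1 / L ^ (m + 1) := by
      rw [le_div_iff₀ (by positivity)]
      exact h.hE1
    have hJ0 := h.J0 ht
    have w1 := h.W_le ht (e := m + 2) (by nlinarith)
    have w0 := h.W_le ht (e := 0) (Nat.zero_le _)
    rw [pow_zero, pow_zero, one_mul, div_one] at w0
    calc |om (2 * κ) ((2 * κ : ℕ) / T) t * F0 k T t| *
          ∫ c, ‖∏ j, PL X Z (t + c j) - ∏ j, Sx (m + 1) Z T t (c j)‖ ∂(mB (m + 1) 0 U)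
        ≤ |om (2 * κ) ((2 * κ : ℕ) / T) t * F0 k T t| *
          ((m + 1 : ℕ) * (U * (8 * |(t - T) / T| ^ (m + 2) * L + (Z : ℝ) ^ 2 * E)) *
            ((8 * m + 33) * (U * L ^ 2)) ^ m) := mul_le_mul_of_nonneg_left h6 (abs_nonneg _)
      _ = ((m + 1 : ℕ) * U * ((8 * m + 33) * (U * L ^ 2)) ^ m) *
          (8 * L * (|(t - T) / T| ^ (m + 2) * |om (2 * κ) ((2 * κ : ℕ) / T) t * F0 k T t|) +
            |om (2 * κ) ((2 * κ : ℕ) / T) t * F0 k T t| * ((Z : ℝ) ^ 2 * E)) := by ring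
      _ ≤ ((m + 1 : ℕ) * U * ((8 * m + 33) * (U * L ^ 2)) ^ m) *
          (8 * L * (K / L ^ (m + 2) * (om κ (κ / T) t * |F0 k T t|)) +
            (K * (om κ (κ / T) t * |F0 k T t|)) * (1 / L ^ (m + 1))) := by
          have hK := h.hK
          have hZ0 : 0 ≤ (Z : ℝ) ^ 2 * E := mul_nonneg (by positivity) h.hE0
          gcongr
      _ = (om κ (κ / T) t * |F0 k T t|) * (U ^ (m + 1) *
          ((9 * K * (m + 1 : ℕ) * (8 * m + 33) ^ m) * (L ^ (2 * m) / L ^ (m + 1)))) := by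
          rw [mul_pow (8 * (m : ℝ) + 33), mul_pow U, ← pow_mul]
          field_simp
          ring
      _ ≤ (om κ (κ / T) t * |F0 k T t|) * (U ^ (m + 1) *
          ((9 * K * (m + 1 : ℕ) * (8 * m + 33) ^ m) * (L ^ (m + 1) / L))) := by
          have hK := h.hK
          have h7 : L ^ (2 * m) / L ^ (m + 1) ≤ L ^ (m + 1) / L := by
            rw [div_le_div_iff₀ (by positivity) hL0, ← pow_succ, ← pow_add]
            exact pow_le_pow_right₀ hL1 (by omega)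
          gcongr
      _ = _ := by
          rw [Nat.add_sub_cancel]
          push_cast
          ring

/-- the mean over the shifts for every `t` -/
theorem all_t (h : Hy k n κ X Z T U L E EP K) {t : ℝ} (ht : 0 < t) :
    ∫ c, ‖HH k n κ X Z T t c‖ ∂(mB n 0 U) ≤
      (om κ (κ / T) t * |F0 k T t|) *
        (U ^ n * ((9 * K * n * (8 * n + 25) ^ (n - 1) + 1) * (L ^ n / L))) := by
  have hU0 := h.U0
  have hL1 := h.hL1
  have hK := h.hK
  have hJ0 := h.J0 ht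
  rcases le_or_gt (|t - T|) (T / 2) with h1 | h1
  · refine (h.near ht h1).trans ?_
    gcongr
    linarith
  · refine (h.far ht h1.le).trans ?_
    have h2 : L ^ n / L ≤ (9 * K * n * (8 * n + 25) ^ (n - 1) + 1) * (L ^ n / L) := by
      refine le_mul_of_one_le_left (by positivity) ?_
      have : 0 ≤ 9 * K * n * (8 * n + 25) ^ (n - 1) := by positivity
      linarith
    gcongr

theorem int_prod (h : Hy k n κ X Z T U L E EP K) :
    Integrable (fun q : ℝ × (Fin n → ℝ) => HH k n κ X Z T q.1 q.2)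
      ((volume.restrict (Set.Ioi (0:ℝ))).prod (mB n 0 U)) := by
  have := fin_mB n U
  have hm := h.meas_HH
  rw [integrable_prod_iff hm.aestronglyMeasurable]
  refine ⟨ae_of_all _ fun t => h.int_HH t, ?_⟩
  refine Integrable.mono' (h.hJ.mul_const
    (U ^ n * ((9 * K * n * (8 * n + 25) ^ (n - 1) + 1) * (L ^ n / L))))
    hm.norm.aestronglyMeasurable.integral_prod_right' ?_
  filter_upwards [ae_restrict_mem measurableSet_Ioi] with t ht
  rw [Real.norm_eq_abs, abs_of_nonneg (integral_nonneg fun _ => norm_nonneg _)]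
  exact h.all_t ht

/-- the double integral -/
theorem total (h : Hy k n κ X Z T U L E EP K) :
    ∫ c, ‖∫ t in Set.Ioi (0:ℝ), HH k n κ X Z T t c‖ ∂(mB n 0 U) ≤
      (∫ t in Set.Ioi (0:ℝ), om κ (κ / T) t * |F0 k T t|) *
        (U ^ n * ((9 * K * n * (8 * n + 25) ^ (n - 1) + 1) * (L ^ n / L))) := by
  have := fin_mB n U
  have hi := h.int_prod
  have hs := integral_integral_swap (μ := volume.restrict (Set.Ioi (0:ℝ))) (ν := mB n 0 U)
    (f := fun t c => ‖HH k n κ X Z T t c‖) hi.norm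
  calc ∫ c, ‖∫ t in Set.Ioi (0:ℝ), HH k n κ X Z T t c‖ ∂(mB n 0 U)
      ≤ ∫ c, (∫ t in Set.Ioi (0:ℝ), ‖HH k n κ X Z T t c‖) ∂(mB n 0 U) := by
        refine integral_mono_of_nonneg (ae_of_all _ fun _ => norm_nonneg _) ?_
          (ae_of_all _ fun c => norm_integral_le_integral_norm _)
        exact hi.norm.integral_prod_right
    _ = ∫ t in Set.Ioi (0:ℝ), (∫ c, ‖HH k n κ X Z T t c‖ ∂(mB n 0 U)) := hs.symm
    _ ≤ ∫ t in Set.Ioi (0:ℝ), (om κ (κ / T) t * |F0 k T t|) *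
        (U ^ n * ((9 * K * n * (8 * n + 25) ^ (n - 1) + 1) * (L ^ n / L))) := by
        refine setIntegral_mono_on hi.norm.integral_prod_left (h.hJ.mul_const _) measurableSet_Ioi
          fun t ht => h.all_t ht
    _ = _ := integral_mul_const _ _

/-! ### the expansion -/

theorem prod_Sx (n Z : ℕ) (T t : ℝ) (c : Fin n → ℝ) :
    ∏ j, Sx n Z T t (c j) = ∑ a : Fin n → Fin (n + 2),
      ((∏ j, kg T (a j) (c j) : ℝ) : ℂ) *
        (((((t - T) / T) ^ (∑ j, ke (a j)) : ℝ) : ℂ) * ∏ j, KK Z (a j) (t + c j)) := by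
  unfold Sx
  rw [Finset.prod_univ_sum, Fintype.piFinset_univ]
  refine sum_congr rfl fun a _ => ?_
  rw [prod_mul_distrib]
  have h1 : ∏ j, ((kg T (a j) (c j) * ((t - T) / T) ^ (ke (a j)) : ℝ) : ℂ) =
      ((∏ j, kg T (a j) (c j) : ℝ) : ℂ) * ((((t - T) / T) ^ (∑ j, ke (a j)) : ℝ) : ℂ) := by
    rw [← Finset.prod_pow_eq_pow_sum, ← Complex.ofReal_mul, ← prod_mul_distrib,
      Complex.ofReal_prod]
  rw [h1, mul_assoc]

theorem sum_ke_le {n : ℕ} (a : Fin n → Fin (n + 2)) : ∑ j, ke (a j) ≤ n * n := by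
  calc ∑ j, ke (a j) ≤ ∑ _j : Fin n, n := sum_le_sum fun j _ => ke_le (a j)
    _ = n * n := by simp

theorem int_term (h : Hy k n κ X Z T U L E EP K) (a : Fin n → Fin (n + 2)) (c : Fin n → ℝ) :
    IntegrableOn (fun t => ((om (2 * κ) ((2 * κ : ℕ) / T) t *
        (((t - T) / T) ^ (∑ j, ke (a j)) * F0 k T t) : ℝ) : ℂ) * ∏ j, KK Z (a j) (t + c j))
      (Set.Ioi 0) := by
  have hc : Continuous fun t => ((om (2 * κ) ((2 * κ : ℕ) / T) t *
        (((t - T) / T) ^ (∑ j, ke (a j)) * F0 k T t) : ℝ) : ℂ) * ∏ j, KK Z (a j) (t + c j) := by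
    refine Continuous.mul ?_ ?_
    · refine Complex.continuous_ofReal.comp ((om_ct _ _).mul (Continuous.mul ?_ h.hF))
      fun_prop
    · refine continuous_finsetProd _ fun j _ => ?_
      have h0 : Continuous fun t : ℝ => t + c j := by fun_prop
      exact (continuous_KK (a j) Z).comp h0
  refine Integrable.mono' (h.hJ.mul_const (K * ((Z : ℝ) ^ 3) ^ n)) hc.aestronglyMeasurable ?_
  filter_upwards [ae_restrict_mem measurableSet_Ioi] with t ht
  have ht0 : 0 < t := ht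
  have w := h.W_le ht0 (e := ∑ j, ke (a j)) (le_trans (sum_ke_le a) (by omega))
  have w' := w.trans (mul_le_mul_of_nonneg_right (h.KL (∑ j, ke (a j))) (h.J0 ht0))
  rw [norm_mul, Complex.norm_real, Real.norm_eq_abs, norm_prod]
  have e1 : |om (2 * κ) ((2 * κ : ℕ) / T) t * (((t - T) / T) ^ (∑ j, ke (a j)) * F0 k T t)| =
      |(t - T) / T| ^ (∑ j, ke (a j)) * |om (2 * κ) ((2 * κ : ℕ) / T) t * F0 k T t| := by
    rw [← abs_pow, ← abs_mul]
    congr 1
    ring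
  rw [e1]
  have e2 : ∏ j, ‖KK Z (a j) (t + c j)‖ ≤ ((Z : ℝ) ^ 3) ^ n := by
    calc ∏ j, ‖KK Z (a j) (t + c j)‖ ≤ ∏ _j : Fin n, (Z : ℝ) ^ 3 :=
          prod_le_prod (fun _ _ => norm_nonneg _) fun j _ => norm_KK_le (a j) Z _
      _ = _ := by rw [prod_const, card_univ, Fintype.card_fin]
  have hJ0 := h.J0 ht0
  have hK := h.hK
  calc _ ≤ (K * (om κ (κ / T) t * |F0 k T t|)) * ((Z : ℝ) ^ 3) ^ n := by
        refine mul_le_mul w' e2 (prod_nonneg fun _ _ => norm_nonneg _) (by positivity)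
    _ = _ := by ring

theorem int_S (h : Hy k n κ X Z T U L E EP K) (c : Fin n → ℝ) :
    IntegrableOn (fun t => ((om (2 * κ) ((2 * κ : ℕ) / T) t * F0 k T t : ℝ) : ℂ) *
      ∏ j, Sx n Z T t (c j)) (Set.Ioi 0) ∧
    ∫ t in Set.Ioi (0:ℝ), ((om (2 * κ) ((2 * κ : ℕ) / T) t * F0 k T t : ℝ) : ℂ) *
      ∏ j, Sx n Z T t (c j) =
    ∑ a : Fin n → Fin (n + 2), ((∏ j, kg T (a j) (c j) : ℝ) : ℂ) *
      ∫ t in Set.Ioi (0:ℝ), ((om (2 * κ) ((2 * κ : ℕ) / T) t *
        (((t - T) / T) ^ (∑ j, ke (a j)) * F0 k T t) : ℝ) : ℂ) * ∏ j, KK Z (a j) (t + c j) := by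
  have e : (fun t => ((om (2 * κ) ((2 * κ : ℕ) / T) t * F0 k T t : ℝ) : ℂ) *
      ∏ j, Sx n Z T t (c j)) = fun t => ∑ a : Fin n → Fin (n + 2),
        ((∏ j, kg T (a j) (c j) : ℝ) : ℂ) * (((om (2 * κ) ((2 * κ : ℕ) / T) t *
        (((t - T) / T) ^ (∑ j, ke (a j)) * F0 k T t) : ℝ) : ℂ) * ∏ j, KK Z (a j) (t + c j)) := by
    funext t
    rw [prod_Sx, mul_sum]
    refine sum_congr rfl fun a _ => ?_
    push_cast
    ring
  have hi : ∀ a ∈ (univ : Finset (Fin n → Fin (n + 2))), Integrable (fun t =>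
      ((∏ j, kg T (a j) (c j) : ℝ) : ℂ) * (((om (2 * κ) ((2 * κ : ℕ) / T) t *
        (((t - T) / T) ^ (∑ j, ke (a j)) * F0 k T t) : ℝ) : ℂ) * ∏ j, KK Z (a j) (t + c j)))
      (volume.restrict (Set.Ioi 0)) := fun a _ => (h.int_term a c).const_mul _
  constructor
  · rw [e]
    exact integrable_finsetSum _ hi
  · rw [e, integral_finsetSum _ hi]
    exact sum_congr rfl fun a _ => integral_const_mul _ _

theorem int_P (h : Hy k n κ X Z T U L E EP K) {c : Fin n → ℝ} (hc : ∀ j, c j ∈ Set.Icc 0 U) :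
    IntegrableOn (fun t => ((om (2 * κ) ((2 * κ : ℕ) / T) t * F0 k T t : ℝ) : ℂ) *
      ∏ j, PL X Z (t + c j)) (Set.Ioc (T / 8) (8 * T)) := by
  have hT0 := h.T0
  have hm : Measurable fun t => ((om (2 * κ) ((2 * κ : ℕ) / T) t * F0 k T t : ℝ) : ℂ) *
      ∏ j, PL X Z (t + c j) := by
    refine Measurable.mul (Complex.continuous_ofReal.comp ((om_ct _ _).mul h.hF)).measurable ?_
    refine Finset.measurable_fun_prod _ fun j _ => ?_
    have h0 : Measurable fun t : ℝ => t + c j := by fun_prop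
    exact (measurable_PL X Z).comp h0
  have hJ : IntegrableOn (fun t => om κ (κ / T) t * |F0 k T t|) (Set.Ioc (T / 8) (8 * T)) :=
    h.hJ.mono_set fun t ht => lt_trans (by positivity) ht.1
  refine Integrable.mono' (hJ.mul_const (K * T ^ n)) hm.aestronglyMeasurable ?_
  filter_upwards [ae_restrict_mem measurableSet_Ioc] with t ht
  have ht0 : 0 < t := lt_trans (by positivity) ht.1
  have w0 := h.W_le ht0 (e := 0) (Nat.zero_le _)
  rw [pow_zero, pow_zero, one_mul, div_one] at w0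
  have hp := h.prodP_le ht.1 ht.2 hc
  have hJ0 := h.J0 ht0
  have hK := h.hK
  rw [norm_mul, Complex.norm_real, Real.norm_eq_abs]
  calc _ ≤ (K * (om κ (κ / T) t * |F0 k T t|)) * T ^ n :=
        mul_le_mul w0 hp (norm_nonneg _) (by positivity)
    _ = _ := by ring

theorem diff_eq (h : Hy k n κ X Z T U L E EP K) {c : Fin n → ℝ} (hc : ∀ j, c j ∈ Set.Icc 0 U) :
    (∫ t in (T / 8)..(8 * T), ((om (2 * κ) ((2 * κ : ℕ) / T) t * F0 k T t : ℝ) : ℂ) *
      ∏ j, PL X Z (t + c j)) -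
    ∑ a : Fin n → Fin (n + 2), ((∏ j, kg T (a j) (c j) : ℝ) : ℂ) *
      ∫ t in Set.Ioi (0:ℝ), ((om (2 * κ) ((2 * κ : ℕ) / T) t *
        (((t - T) / T) ^ (∑ j, ke (a j)) * F0 k T t) : ℝ) : ℂ) * ∏ j, KK Z (a j) (t + c j) =
    ∫ t in Set.Ioi (0:ℝ), HH k n κ X Z T t c := by
  have hT0 := h.T0
  obtain ⟨i2, e2⟩ := h.int_S c
  have i1 := h.int_P hc
  have hsub : Set.Ioc (T / 8) (8 * T) ⊆ Set.Ioi 0 := fun t ht => lt_trans (by positivity) ht.1
  have e1 : ∫ t in (T / 8)..(8 * T), ((om (2 * κ) ((2 * κ : ℕ) / T) t * F0 k T t : ℝ) : ℂ) *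
      ∏ j, PL X Z (t + c j) = ∫ t in Set.Ioi (0:ℝ), (Set.Ioc (T / 8) (8 * T)).indicator
        (fun t => ((om (2 * κ) ((2 * κ : ℕ) / T) t * F0 k T t : ℝ) : ℂ) *
          ∏ j, PL X Z (t + c j)) t := by
    rw [intervalIntegral.integral_of_le (by linarith), setIntegral_indicator measurableSet_Ioc,
      Set.inter_eq_self_of_subset_right hsub]
  have i1' : IntegrableOn ((Set.Ioc (T / 8) (8 * T)).indicator
        (fun t => ((om (2 * κ) ((2 * κ : ℕ) / T) t * F0 k T t : ℝ) : ℂ) *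
          ∏ j, PL X Z (t + c j))) (Set.Ioi 0) := by
    exact ((integrable_indicator_iff measurableSet_Ioc).2 i1).integrableOn
  rw [e1, ← e2, ← integral_sub i1' i2]
  refine integral_congr_ae (ae_of_all _ fun t => ?_)
  simp only
  unfold HH
  by_cases ht : T / 8 < t ∧ t ≤ 8 * T
  · have ht' : t ∈ Set.Ioc (T / 8) (8 * T) := ht
    rw [Set.indicator_of_mem ht', if_pos ht]
    ring
  · have ht' : t ∉ Set.Ioc (T / 8) (8 * T) := ht
    rw [Set.indicator_of_notMem ht', if_neg ht]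
    ring

/-- the theorem for given parameters -/
theorem main (h : Hy k n κ X Z T U L E EP K) :
    ∫ c, ‖(∫ t in (T / 8)..(8 * T), ((om (2 * κ) ((2 * κ : ℕ) / T) t * F0 k T t : ℝ) : ℂ) *
      ∏ j, PL X Z (t + c j)) -
    ∑ a : Fin n → Fin (n + 2), ((∏ j, kg T (a j) (c j) : ℝ) : ℂ) *
      ∫ t in Set.Ioi (0:ℝ), ((om (2 * κ) ((2 * κ : ℕ) / T) t *
        (((t - T) / T) ^ (∑ j, ke (a j)) * F0 k T t) : ℝ) : ℂ) *
          ∏ j, KK Z (a j) (t + c j)‖ ∂(mB n 0 U) ≤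
      (∫ t in Set.Ioi (0:ℝ), om κ (κ / T) t * |F0 k T t|) *
        (U ^ n * ((9 * K * n * (8 * n + 25) ^ (n - 1) + 1) * (L ^ n / L))) := by
  refine le_trans (le_of_eq ?_) h.total
  refine integral_congr_ae ?_
  filter_upwards [ae_box n U] with c hc
  rw [h.diff_eq hc]

end Hy

end Pool.Agent.Y670.SX
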