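import Pool.Agent.Y670.SX.Pt

set_option autoImplicit false

/-!
Project SX (helper969), job SX-TAY: the mean over the shifts for fixed `t`.
-/

namespace Pool.Agent.Y670.SX

open Finset Filter Topology MeasureTheory Complex
open Pool.Agent.Y969.GP (ff ht lam FR PX cr V mB co PS)
open Pool.Agent.Y969.SM

theorem box_diff (n : ℕ) {U : ℝ} {f g : ℝ → ℂ} (hf : IntegrableOn (fun c => ‖f c‖) (Set.Icc 0 U))
    (hg : IntegrableOn (fun c => ‖g c‖) (Set.Icc 0 U)) :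
    ∫ c, ‖∏ j, (f (c j) + g (c j)) - ∏ j, f (c j)‖ ∂(mB n 0 U) ≤
      ((∫ c in Set.Icc 0 U, ‖f c‖) + ∫ c in Set.Icc 0 U, ‖g c‖) ^ n -
        (∫ c in Set.Icc 0 U, ‖f c‖) ^ n := by
  have i1 : Integrable (fun c : Fin n → ℝ => ∏ j, (‖f (c j)‖ + ‖g (c j)‖)) (mB n 0 U) :=
    Integrable.fintype_prod (𝕜 := ℝ) (f := fun (_ : Fin n) c => ‖f c‖ + ‖g c‖) fun _ => hf.add hg
  have i2 : Integrable (fun c : Fin n → ℝ => ∏ j, ‖f (c j)‖) (mB n 0 U) :=
    Integrable.fintype_prod (𝕜 := ℝ) (f := fun (_ : Fin n) c => ‖f c‖) fun _ => hf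
  have e1 : ∫ c, ∏ j, (‖f (c j)‖ + ‖g (c j)‖) ∂(mB n 0 U) =
      ((∫ c in Set.Icc 0 U, ‖f c‖) + ∫ c in Set.Icc 0 U, ‖g c‖) ^ n := by
    have h := MeasureTheory.integral_fintype_prod_eq_prod (𝕜 := ℝ) (ι := Fin n) (E := fun _ => ℝ)
      (μ := fun _ => volume.restrict (Set.Icc (0:ℝ) U)) (fun _ c => ‖f c‖ + ‖g c‖)
    unfold mB
    rw [h, integral_add hf hg, prod_const, card_univ, Fintype.card_fin]
  have e2 : ∫ c, ∏ j, ‖f (c j)‖ ∂(mB n 0 U) = (∫ c in Set.Icc 0 U, ‖f c‖) ^ n := by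
    have h := MeasureTheory.integral_fintype_prod_eq_prod (𝕜 := ℝ) (ι := Fin n) (E := fun _ => ℝ)
      (μ := fun _ => volume.restrict (Set.Icc (0:ℝ) U)) (fun _ c => ‖f c‖)
    unfold mB
    rw [h, prod_const, card_univ, Fintype.card_fin]
  rw [← e1, ← e2, ← integral_sub i1 i2]
  exact integral_mono_of_nonneg (ae_of_all _ fun _ => norm_nonneg _) (i1.sub i2)
    (ae_of_all _ fun c => prod_diff univ (fun j => f (c j)) fun j => g (c j))

theorem ke_le {n : ℕ} (i : Fin (n + 2)) : ke i ≤ n := by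
  unfold ke
  split_ifs with h
  · exact Nat.zero_le n
  · have h1 := i.2
    have h2 : (i : ℕ) ≠ n + 1 := fun h3 => h (Fin.ext h3)
    omega

theorem Sx_mean {n Z : ℕ} {T U L t : ℝ} (h3 : S_ORT) (hZ : 1 ≤ Z) (hZU : 4 * (Z : ℝ) ^ 3 ≤ U)
    (hT : 2 * Real.pi ≤ T) (hL1 : 1 ≤ L) (hZL : Real.log Z ≤ L)
    (hLc : ∀ c : ℝ, 0 ≤ c → c ≤ U →
      Real.log ((T + c) / (2 * Real.pi)) + 2 * Real.eulerMascheroniConstant ≤ 2 * L)
    (hx : |(t - T) / T| ≤ 1) :
    IntegrableOn (fun c => ‖Sx n Z T t c‖) (Set.Icc 0 U) ∧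
      ∫ c in Set.Icc 0 U, ‖Sx n Z T t c‖ ≤ (8 * n + 16) * (U * L ^ 2) := by
  have hU0 : 0 ≤ U := le_trans (by positivity) hZU
  have hlog : 0 ≤ Real.log Z := Real.log_nonneg (by exact_mod_cast hZ)
  have hb : ∀ i : Fin (n + 2), |(t - T) / T| ^ (ke i) ≤ 1 := fun i => pow_le_one₀ (abs_nonneg _) hx
  have hcont : ∀ i : Fin (n + 2), Continuous fun c => KK Z i (t + c) := fun i =>
    (continuous_KK i Z).comp (by fun_prop)
  have hi : ∀ i : Fin (n + 2), Integrable (fun c => (if (i : ℕ) = 0 then 2 * L else 1) * 1 *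
      ‖KK Z i (t + c)‖) (volume.restrict (Set.Icc 0 U)) := fun i =>
    ((hcont i).norm.integrableOn_Icc (a := 0) (b := U)).const_mul _
  have hpt : ∀ c ∈ Set.Icc 0 U, ‖Sx n Z T t c‖ ≤ ∑ i : Fin (n + 2),
      (if (i : ℕ) = 0 then 2 * L else 1) * 1 * ‖KK Z i (t + c)‖ := fun c hc =>
    norm_Sx_le hT hc.1 (hLc c hc.1 hc.2) hb
  have hae : ∀ᵐ c ∂(volume.restrict (Set.Icc 0 U)), ‖Sx n Z T t c‖ ≤ ∑ i : Fin (n + 2),
      (if (i : ℕ) = 0 then 2 * L else 1) * 1 * ‖KK Z i (t + c)‖ := by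
    filter_upwards [ae_restrict_mem measurableSet_Icc] with c hc using hpt c hc
  have hint : Integrable (fun c => ∑ i : Fin (n + 2),
      (if (i : ℕ) = 0 then 2 * L else 1) * 1 * ‖KK Z i (t + c)‖)
      (volume.restrict (Set.Icc 0 U)) := integrable_finsetSum _ fun i _ => hi i
  have hmeas : Measurable fun c => Sx n Z T t c := measurable_Sx' n Z T t
  constructor
  · refine Integrable.mono' hint hmeas.norm.aestronglyMeasurable ?_
    filter_upwards [hae] with c hc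
    rwa [Real.norm_eq_abs, abs_of_nonneg (norm_nonneg _)]
  · calc ∫ c in Set.Icc 0 U, ‖Sx n Z T t c‖ ≤ ∫ c in Set.Icc 0 U, ∑ i : Fin (n + 2),
          (if (i : ℕ) = 0 then 2 * L else 1) * 1 * ‖KK Z i (t + c)‖ :=
          integral_mono_of_nonneg (ae_of_all _ fun _ => norm_nonneg _) hint hae
      _ = ∑ i : Fin (n + 2), (if (i : ℕ) = 0 then 2 * L else 1) * 1 *
          ∫ c in Set.Icc 0 U, ‖KK Z i (t + c)‖ := by
          rw [integral_finsetSum _ fun i _ => hi i]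
          exact sum_congr rfl fun i _ => integral_const_mul _ _
      _ ≤ ∑ _i : Fin (n + 2), 8 * (U * L ^ 2) := by
          refine sum_le_sum fun i _ => ?_
          by_cases h1 : i = Fin.last (n + 1)
          · have h0 : (i : ℕ) ≠ 0 := by
              rw [h1]
              simp
            rw [if_neg h0]
            have h2 := KK_mean (B := 2 * L ^ 2) h3 i hZ hZU (by positivity) (by
              rw [if_pos h1]
              nlinarith) t
            nlinarith [mul_nonneg hU0 (sq_nonneg L)]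
          · have h2 := KK_mean (B := 2 * L) h3 i hZ hZU (by positivity) (by
              rw [if_neg h1]
              linarith) t
            split_ifs with h0
            · calc 2 * L * 1 * ∫ c in Set.Icc 0 U, ‖KK Z i (t + c)‖
                  ≤ 2 * L * 1 * (2 * U * (2 * L)) := by gcongr
                _ = 8 * (U * L ^ 2) := by ring
            · calc 1 * 1 * ∫ c in Set.Icc 0 U, ‖KK Z i (t + c)‖
                  ≤ 1 * 1 * (2 * U * (2 * L)) := by gcongr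
                _ = 4 * (U * (L * 1)) := by ring
                _ ≤ 8 * (U * (L * L)) := by gcongr <;> norm_num
                _ = 8 * (U * L ^ 2) := by ring
      _ = (8 * n + 16) * (U * L ^ 2) := by
          rw [sum_const, card_univ, Fintype.card_fin, nsmul_eq_mul]
          push_cast
          ring

/-- the mean over the shifts near the centre -/
theorem reg1 (m : ℕ) {X Z : ℕ} {T U L E t : ℝ} (h3 : S_ORT) (hZ : 1 ≤ Z)
    (hZU : 4 * (Z : ℝ) ^ 3 ≤ U) (hT : 2 * Real.pi ≤ T) (hL1 : 1 ≤ L) (hZL : Real.log Z ≤ L)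
    (hLc : ∀ c : ℝ, 0 ≤ c → c ≤ U →
      Real.log ((T + c) / (2 * Real.pi)) + 2 * Real.eulerMascheroniConstant ≤ 2 * L)
    (hx : |(t - T) / T| ≤ 1 / 2) (hE0 : 0 ≤ E) (hE1 : (Z : ℝ) ^ 2 * E ≤ 1)
    (hE : ∀ c : ℝ, 0 ≤ c → c ≤ U → ∀ p ∈ FR Z, |√(ht p) * cr X p (t + c) -
      (Real.log ((t + c) / (2 * Real.pi * ht p)) + 2 * Real.eulerMascheroniConstant)| ≤ E) :
    ∫ c, ‖∏ j, PL X Z (t + c j) - ∏ j, Sx (m + 1) Z T t (c j)‖ ∂(mB (m + 1) 0 U) ≤
      (m + 1 : ℕ) * (U * (8 * |(t - T) / T| ^ (m + 2) * L + (Z : ℝ) ^ 2 * E)) *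
        ((8 * m + 33) * (U * L ^ 2)) ^ m := by
  have hpi := Real.pi_pos
  have hT0 : 0 < T := by linarith
  have hU0 : 0 ≤ U := le_trans (by positivity) hZU
  have hlog : 0 ≤ Real.log Z := Real.log_nonneg (by exact_mod_cast hZ)
  obtain ⟨if1, if2⟩ := Sx_mean (n := m + 1) (t := t) h3 hZ hZU hT hL1 hZL hLc (by linarith)
  have hmS : Measurable fun c => Sx (m + 1) Z T t c := measurable_Sx' (m + 1) Z T t
  have hmt : Measurable fun c : ℝ => t + c := by fun_prop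
  have hmP := (measurable_PL X Z).comp hmt
  have hcont : Continuous fun c => KK Z (0 : Fin (m + 1 + 2)) (t + c) :=
    (continuous_KK _ Z).comp (by fun_prop)
  have hiK : Integrable (fun c => 2 * |(t - T) / T| ^ (m + 1 + 1) *
      ‖KK Z (0 : Fin (m + 1 + 2)) (t + c)‖ + (Z : ℝ) ^ 2 * E) (volume.restrict (Set.Icc 0 U)) :=
    ((hcont.norm.integrableOn_Icc (a := 0) (b := U)).const_mul _).add (integrable_const _)
  have hae : ∀ᵐ c ∂(volume.restrict (Set.Icc 0 U)), ‖PL X Z (t + c) - Sx (m + 1) Z T t c‖ ≤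
      2 * |(t - T) / T| ^ (m + 1 + 1) * ‖KK Z (0 : Fin (m + 1 + 2)) (t + c)‖ +
        (Z : ℝ) ^ 2 * E := by
    filter_upwards [ae_restrict_mem measurableSet_Icc] with c hc
    exact norm_R_le (m + 1) hT0 hc.1 hx hE0 (hE c hc.1 hc.2)
  have ig1 : IntegrableOn (fun c => ‖PL X Z (t + c) - Sx (m + 1) Z T t c‖) (Set.Icc 0 U) := by
    refine Integrable.mono' hiK (hmP.sub hmS).norm.aestronglyMeasurable ?_
    filter_upwards [hae] with c hc
    rwa [Real.norm_eq_abs, abs_of_nonneg (norm_nonneg _)]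
  have ig2 : ∫ c in Set.Icc 0 U, ‖PL X Z (t + c) - Sx (m + 1) Z T t c‖ ≤
      U * (8 * |(t - T) / T| ^ (m + 2) * L + (Z : ℝ) ^ 2 * E) := by
    have h2 := KK_mean (B := 2 * L) h3 (0 : Fin (m + 1 + 2)) hZ hZU (by positivity) (by
      rw [if_neg (ne_last_zero (m + 1))]
      linarith) t
    calc ∫ c in Set.Icc 0 U, ‖PL X Z (t + c) - Sx (m + 1) Z T t c‖
        ≤ ∫ c in Set.Icc 0 U, (2 * |(t - T) / T| ^ (m + 1 + 1) *
          ‖KK Z (0 : Fin (m + 1 + 2)) (t + c)‖ + (Z : ℝ) ^ 2 * E) :=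
          integral_mono_of_nonneg (ae_of_all _ fun _ => norm_nonneg _) hiK hae
      _ = 2 * |(t - T) / T| ^ (m + 1 + 1) * (∫ c in Set.Icc 0 U,
          ‖KK Z (0 : Fin (m + 1 + 2)) (t + c)‖) + U * ((Z : ℝ) ^ 2 * E) := by
          rw [integral_add ((hcont.norm.integrableOn_Icc (a := 0) (b := U)).const_mul _)
            (integrable_const _), integral_const_mul]
          simp [hU0]
      _ ≤ 2 * |(t - T) / T| ^ (m + 1 + 1) * (2 * U * (2 * L)) + U * ((Z : ℝ) ^ 2 * E) := by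
          gcongr
      _ = _ := by ring
  have h := box_diff (m + 1) if1 ig1
  have e1 : ∀ c : Fin (m + 1) → ℝ, ∏ j, (Sx (m + 1) Z T t (c j) +
      (PL X Z (t + c j) - Sx (m + 1) Z T t (c j))) = ∏ j, PL X Z (t + c j) := fun c =>
    prod_congr rfl fun j _ => by ring
  simp only [e1] at h
  have hs0 : 0 ≤ ∫ c in Set.Icc 0 U, ‖Sx (m + 1) Z T t c‖ :=
    integral_nonneg fun _ => norm_nonneg _
  have hr0 : 0 ≤ ∫ c in Set.Icc 0 U, ‖PL X Z (t + c) - Sx (m + 1) Z T t c‖ :=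
    integral_nonneg fun _ => norm_nonneg _
  have hx1 : |(t - T) / T| ^ (m + 2) ≤ 1 := pow_le_one₀ (abs_nonneg _) (by linarith)
  have hM : (∫ c in Set.Icc 0 U, ‖Sx (m + 1) Z T t c‖) +
      ∫ c in Set.Icc 0 U, ‖PL X Z (t + c) - Sx (m + 1) Z T t c‖ ≤
        (8 * m + 33) * (U * L ^ 2) := by
    have h4 : U * (8 * |(t - T) / T| ^ (m + 2) * L + (Z : ℝ) ^ 2 * E) ≤ 9 * (U * L ^ 2) := by
      calc U * (8 * |(t - T) / T| ^ (m + 2) * L + (Z : ℝ) ^ 2 * E) ≤ U * (8 * 1 * L + 1) := by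
            gcongr
        _ ≤ U * (9 * L ^ 2) := by
            refine mul_le_mul_of_nonneg_left ?_ hU0
            nlinarith
        _ = _ := by ring
    push_cast at if2
    linarith
  refine h.trans ((pow_diff m hs0 hr0 hM).trans ?_)
  gcongr

end Pool.Agent.Y670.SX
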