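import Pool.Agent.Y969.SM.Stm

set_option autoImplicit false

/-!
Project SX (helper969), job SX-TAY: elementary tools (products, pairs of small height, mean values of
the trigonometric polynomials `KK`).
-/

namespace Pool.Agent.Y670.SX

open Finset Filter Topology MeasureTheory Complex
open Pool.Agent.Y969.GP (ff ht lam FR PX cr V mB co PS)
open Pool.Agent.Y969.SM

theorem norm_ex (x : ℝ) : ‖cexp (I * (x : ℂ))‖ = 1 := by
  rw [mul_comm]
  exact Complex.norm_exp_ofReal_mul_I x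

theorem prod_diff {ι : Type*} (s : Finset ι) (a b : ι → ℂ) :
    ‖∏ j ∈ s, (a j + b j) - ∏ j ∈ s, a j‖ ≤ ∏ j ∈ s, (‖a j‖ + ‖b j‖) - ∏ j ∈ s, ‖a j‖ := by
  classical
  induction s using Finset.induction_on with
  | empty => simp
  | insert i s hi ih =>
    rw [prod_insert hi, prod_insert hi, prod_insert hi, prod_insert hi]
    have h1 : (a i + b i) * ∏ j ∈ s, (a j + b j) - a i * ∏ j ∈ s, a j =
      a i * (∏ j ∈ s, (a j + b j) - ∏ j ∈ s, a j) + b i * ∏ j ∈ s, (a j + b j) := by ring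
    have h2 : ‖∏ j ∈ s, (a j + b j)‖ ≤ ∏ j ∈ s, (‖a j‖ + ‖b j‖) := by
      rw [norm_prod]
      exact prod_le_prod (fun _ _ => norm_nonneg _) fun j _ => norm_add_le _ _
    rw [h1]
    calc _ ≤ ‖a i‖ * ‖∏ j ∈ s, (a j + b j) - ∏ j ∈ s, a j‖ + ‖b i‖ * ‖∏ j ∈ s, (a j + b j)‖ := by
          refine (norm_add_le _ _).trans ?_
          rw [norm_mul, norm_mul]
      _ ≤ ‖a i‖ * (∏ j ∈ s, (‖a j‖ + ‖b j‖) - ∏ j ∈ s, ‖a j‖) +
          ‖b i‖ * ∏ j ∈ s, (‖a j‖ + ‖b j‖) := by gcongr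
      _ = _ := by ring

theorem pow_diff (m : ℕ) {s r M : ℝ} (hs : 0 ≤ s) (hr : 0 ≤ r) (hM : s + r ≤ M) :
    (s + r) ^ (m + 1) - s ^ (m + 1) ≤ (m + 1 : ℕ) * r * M ^ m := by
  have hM0 : 0 ≤ M := by linarith
  have hsM : s ≤ M := by linarith
  induction m with
  | zero => simp
  | succ m ih =>
    have h1 : (s + r) ^ (m + 1 + 1) - s ^ (m + 1 + 1) =
        (s + r) * ((s + r) ^ (m + 1) - s ^ (m + 1)) + r * s ^ (m + 1) := by ring
    have h0 : 0 ≤ (s + r) ^ (m + 1) - s ^ (m + 1) := by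
      have : s ^ (m + 1) ≤ (s + r) ^ (m + 1) := pow_le_pow_left₀ hs (by linarith) _
      linarith
    rw [h1]
    calc _ ≤ M * ((m + 1 : ℕ) * r * M ^ m) + r * M ^ (m + 1) := by
          have h2 : (s + r) * ((s + r) ^ (m + 1) - s ^ (m + 1)) ≤ M * ((m + 1 : ℕ) * r * M ^ m) :=
            mul_le_mul hM ih h0 hM0
          have h3 : r * s ^ (m + 1) ≤ r * M ^ (m + 1) := by gcongr
          linarith
      _ = _ := by push_cast; ring

/-! ### pairs of small height -/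

theorem mem_FR {Z : ℕ} {p : ℕ × ℕ} (hp : p ∈ FR Z) :
    1 ≤ p.1 ∧ 1 ≤ p.2 ∧ p.1 ≤ Z ∧ p.2 ≤ Z ∧ 1 ≤ ht p ∧ ht p ≤ Z := by
  simp only [FR, PS, mem_filter, mem_product, mem_Icc] at hp
  obtain ⟨⟨⟨⟨h1, h2⟩, h3, h4⟩, h5⟩, _⟩ := hp
  refine ⟨h1, h3, h2, h4, ?_, ?_⟩
  · have : 1 ≤ p.1 * p.2 := Nat.mul_pos h1 h3
    unfold ht
    exact_mod_cast this
  · unfold ht
    exact_mod_cast h5

theorem card_FR (Z : ℕ) : ((FR Z).card : ℝ) ≤ (Z : ℝ) ^ 2 := by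
  have h1 : FR Z ⊆ Icc 1 Z ×ˢ Icc 1 Z := (filter_subset _ _).trans (filter_subset _ _)
  have h2 := card_le_card h1
  rw [card_product, Nat.card_Icc] at h2
  have : (FR Z).card ≤ Z ^ 2 := by
    rw [sq]
    simpa using h2
  exact_mod_cast this

theorem sum_inv_ht (Z : ℕ) : ∑ p ∈ FR Z, (ht p)⁻¹ ≤ (1 + Real.log Z) ^ 2 := by
  have h1 : FR Z ⊆ Icc 1 Z ×ˢ Icc 1 Z := (filter_subset _ _).trans (filter_subset _ _)
  have hh : ∑ m ∈ Icc 1 Z, ((m : ℝ))⁻¹ ≤ 1 + Real.log Z := by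
    have := harmonic_le_one_add_log Z
    rw [harmonic_eq_sum_Icc] at this
    push_cast at this
    exact this
  have hh0 : 0 ≤ ∑ m ∈ Icc 1 Z, ((m : ℝ))⁻¹ := sum_nonneg fun _ _ => by positivity
  calc ∑ p ∈ FR Z, (ht p)⁻¹ ≤ ∑ p ∈ Icc 1 Z ×ˢ Icc 1 Z, (ht p)⁻¹ := by
        refine sum_le_sum_of_subset_of_nonneg h1 fun p _ _ => ?_
        unfold ht
        positivity
    _ = (∑ m ∈ Icc 1 Z, ((m : ℝ))⁻¹) * ∑ m ∈ Icc 1 Z, ((m : ℝ))⁻¹ := by
        rw [sum_mul_sum, sum_product]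
        refine sum_congr rfl fun a _ => sum_congr rfl fun b _ => ?_
        simp only [ht]
        rw [mul_inv]
    _ ≤ (1 + Real.log Z) ^ 2 := by
        rw [sq]
        exact mul_le_mul hh hh hh0 (hh0.trans hh)

/-! ### the coefficients -/

theorem kc_ne {n : ℕ} {i : Fin (n + 2)} (hi : i ≠ Fin.last (n + 1)) (p : ℕ × ℕ) :
    kc i p = (√(ht p))⁻¹ := if_neg hi

theorem kc_last {n : ℕ} (p : ℕ × ℕ) :
    kc (Fin.last (n + 1)) p = (√(ht p))⁻¹ * Real.log (ht p) := if_pos rfl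

theorem kc_sq_le {n : ℕ} (i : Fin (n + 2)) {Z : ℕ} {p : ℕ × ℕ} (hp : p ∈ FR Z) :
    kc i p ^ 2 ≤ (if i = Fin.last (n + 1) then Real.log Z else 1) ^ 2 * (ht p)⁻¹ := by
  obtain ⟨_, _, _, _, h1, h2⟩ := mem_FR hp
  have h0 : 0 ≤ ht p := by linarith
  by_cases hi : i = Fin.last (n + 1)
  · rw [if_pos hi, hi, kc_last, mul_pow, inv_pow, Real.sq_sqrt h0, mul_comm]
    have h3 : 0 ≤ Real.log (ht p) := Real.log_nonneg h1
    have h4 : Real.log (ht p) ≤ Real.log Z := Real.log_le_log (by linarith) h2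
    gcongr
  · rw [if_neg hi, kc_ne hi, inv_pow, Real.sq_sqrt h0]
    simp

theorem abs_kc_le {n : ℕ} (i : Fin (n + 2)) {Z : ℕ} {p : ℕ × ℕ} (hp : p ∈ FR Z) :
    |kc i p| ≤ Z := by
  obtain ⟨_, _, _, _, h1, h2⟩ := mem_FR hp
  have h0 : 0 ≤ ht p := by linarith
  have hs : (√(ht p))⁻¹ ≤ 1 := inv_le_one_of_one_le₀ (Real.one_le_sqrt.2 h1)
  have hs0 : 0 ≤ (√(ht p))⁻¹ := by positivity
  have h3 : 0 ≤ Real.log (ht p) := Real.log_nonneg h1
  have h4 : Real.log (ht p) ≤ ht p := by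
    have := Real.log_le_sub_one_of_pos (show 0 < ht p by linarith)
    linarith
  by_cases hi : i = Fin.last (n + 1)
  · rw [hi, kc_last, abs_of_nonneg (mul_nonneg hs0 h3)]
    calc (√(ht p))⁻¹ * Real.log (ht p) ≤ 1 * ht p := by gcongr
      _ ≤ Z := by linarith
  · rw [kc_ne hi, abs_of_nonneg hs0]
    linarith

theorem norm_KK_le {n : ℕ} (i : Fin (n + 2)) (Z : ℕ) (u : ℝ) : ‖KK Z i u‖ ≤ (Z : ℝ) ^ 3 := by
  unfold KK
  calc ‖∑ p ∈ FR Z, (kc i p : ℂ) * cexp (I * ((u * lam p : ℝ) : ℂ))‖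
      ≤ ∑ p ∈ FR Z, ‖(kc i p : ℂ) * cexp (I * ((u * lam p : ℝ) : ℂ))‖ := norm_sum_le _ _
    _ ≤ ∑ _p ∈ FR Z, (Z : ℝ) := by
        refine sum_le_sum fun p hp => ?_
        rw [norm_mul, norm_ex, mul_one, Complex.norm_real, Real.norm_eq_abs]
        exact abs_kc_le i hp
    _ = (FR Z).card * (Z : ℝ) := by rw [sum_const, nsmul_eq_mul]
    _ ≤ (Z : ℝ) ^ 2 * Z := by
        gcongr
        exact card_FR Z
    _ = _ := by ring

theorem continuous_KK {n : ℕ} (i : Fin (n + 2)) (Z : ℕ) : Continuous (KK Z i) := by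
  unfold KK
  fun_prop

/-! ### mean values -/

theorem sum_pi_one {M : Type*} [AddCommMonoid M] (s : Finset (ℕ × ℕ)) (f : ℕ × ℕ → M) :
    ∑ q ∈ Fintype.piFinset (fun _ : Fin 1 => s), f (q 0) = ∑ p ∈ s, f p := by
  refine sum_nbij' (fun q => q 0) (fun p _ => p) ?_ ?_ ?_ ?_ ?_
  · intro q hq
    exact Fintype.mem_piFinset.1 hq 0
  · intro p hp
    exact Fintype.mem_piFinset.2 fun _ => hp
  · intro q _
    funext j
    rw [Subsingleton.elim j 0]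
  · intro p _
    rfl
  · intro q _
    rfl

theorem int_one (U : ℝ) (g : ℝ → ℝ) :
    ∫ c, g (c 0) ∂(mB 1 0 U) = ∫ c in Set.Icc 0 U, g c := by
  have h := MeasureTheory.integral_fintype_prod_eq_prod (𝕜 := ℝ) (ι := Fin 1) (E := fun _ => ℝ)
    (μ := fun _ => volume.restrict (Set.Icc (0:ℝ) U)) (fun _ => g)
  simpa [mB] using h

theorem KK_sq {n : ℕ} (h3 : S_ORT) (i : Fin (n + 2)) {Z : ℕ} (hZ : 1 ≤ Z) {U : ℝ}
    (hU : 4 * (Z : ℝ) ^ 3 ≤ U) (t : ℝ) :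
    ∫ c in Set.Icc 0 U, ‖KK Z i (t + c)‖ ^ 2 ≤
      2 * U * ((if i = Fin.last (n + 1) then Real.log Z else 1) ^ 2 * (1 + Real.log Z) ^ 2) := by
  have h := h3 1 Z U (fun q => (kc i (q 0) : ℂ) * cexp (I * ((t * lam (q 0) : ℝ) : ℂ))) hZ
    (by simpa using hU)
  have hU0 : 0 ≤ U := le_trans (by positivity) hU
  have e1 : ∀ c : Fin 1 → ℝ, ∑ q ∈ Fintype.piFinset (fun _ : Fin 1 => FR Z),
      ((kc i (q 0) : ℂ) * cexp (I * ((t * lam (q 0) : ℝ) : ℂ))) *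
        ∏ j, cexp (I * ((c j * lam (q j) : ℝ) : ℂ)) = KK Z i (t + c 0) := by
    intro c
    refine Eq.trans ?_ (sum_pi_one (FR Z) (fun p : ℕ × ℕ =>
          (kc i p : ℂ) * cexp (I * (((t + c 0) * lam p : ℝ) : ℂ))))
    refine sum_congr rfl fun q _ => ?_
    simp only [univ_unique, Fin.default_eq_zero, Fin.isValue, prod_singleton]
    rw [mul_assoc, ← Complex.exp_add]
    congr 2
    push_cast
    ring
  have e2 : ∑ q ∈ Fintype.piFinset (fun _ : Fin 1 => FR Z),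
      ‖(kc i (q 0) : ℂ) * cexp (I * ((t * lam (q 0) : ℝ) : ℂ))‖ ^ 2 = ∑ p ∈ FR Z, kc i p ^ 2 := by
    rw [← sum_pi_one]
    refine sum_congr rfl fun q _ => ?_
    rw [norm_mul, norm_ex, mul_one, Complex.norm_real, Real.norm_eq_abs, sq_abs]
  simp only [e1] at h
  rw [e2, int_one U (fun c => ‖KK Z i (t + c)‖ ^ 2)] at h
  refine h.trans ?_
  rw [pow_one]
  refine mul_le_mul_of_nonneg_left ?_ (by positivity)
  calc ∑ p ∈ FR Z, kc i p ^ 2
      ≤ ∑ p ∈ FR Z, (if i = Fin.last (n + 1) then Real.log Z else 1) ^ 2 * (ht p)⁻¹ :=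
        sum_le_sum fun p hp => kc_sq_le i hp
    _ = (if i = Fin.last (n + 1) then Real.log Z else 1) ^ 2 * ∑ p ∈ FR Z, (ht p)⁻¹ := by
        rw [mul_sum]
    _ ≤ _ := mul_le_mul_of_nonneg_left (sum_inv_ht Z) (sq_nonneg _)

/-- the mean value of `KK` over the shifts -/
theorem KK_mean {n : ℕ} (h3 : S_ORT) (i : Fin (n + 2)) {Z : ℕ} (hZ : 1 ≤ Z) {U B : ℝ}
    (hU : 4 * (Z : ℝ) ^ 3 ≤ U) (hB : 0 < B)
    (hB' : (if i = Fin.last (n + 1) then Real.log Z else 1) * (1 + Real.log Z) ≤ B) (t : ℝ) :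
    ∫ c in Set.Icc 0 U, ‖KK Z i (t + c)‖ ≤ 2 * U * B := by
  have hU0 : 0 ≤ U := le_trans (by positivity) hU
  have hlog : 0 ≤ Real.log Z := Real.log_nonneg (by exact_mod_cast hZ)
  have h := KK_sq h3 i hZ hU t
  have hcont : Continuous fun c => KK Z i (t + c) := (continuous_KK i Z).comp (by fun_prop)
  have i1 : IntegrableOn (fun c => ‖KK Z i (t + c)‖) (Set.Icc 0 U) :=
    hcont.norm.integrableOn_Icc
  have i2 : IntegrableOn (fun c => ‖KK Z i (t + c)‖ ^ 2) (Set.Icc 0 U) :=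
    (hcont.norm.pow 2).integrableOn_Icc
  have h0 : 0 ≤ (if i = Fin.last (n + 1) then Real.log Z else 1) * (1 + Real.log Z) := by
    split_ifs <;> positivity
  have h1 : ∫ c in Set.Icc 0 U, ‖KK Z i (t + c)‖ ^ 2 ≤ 2 * U * B ^ 2 := by
    refine h.trans ?_
    rw [← mul_pow]
    gcongr
  calc ∫ c in Set.Icc 0 U, ‖KK Z i (t + c)‖
      ≤ ∫ c in Set.Icc 0 U, (B + ‖KK Z i (t + c)‖ ^ 2 * (2 * B)⁻¹) := by
        refine setIntegral_mono_on i1 ?_ measurableSet_Icc fun c _ => ?_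
        · have i3 : Integrable (fun _ : ℝ => B) (volume.restrict (Set.Icc 0 U)) :=
            integrable_const B
          exact i3.add (i2.mul_const _)
        · rw [← sub_nonneg]
          have : B + ‖KK Z i (t + c)‖ ^ 2 * (2 * B)⁻¹ - ‖KK Z i (t + c)‖ =
              ((‖KK Z i (t + c)‖ - B) ^ 2 + B ^ 2) * (2 * B)⁻¹ := by
            field_simp
            ring
          rw [this]
          positivity
    _ = U * B + (∫ c in Set.Icc 0 U, ‖KK Z i (t + c)‖ ^ 2) * (2 * B)⁻¹ := by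
        have i3 : Integrable (fun _ : ℝ => B) (volume.restrict (Set.Icc 0 U)) :=
          integrable_const B
        rw [integral_add i3 (i2.mul_const _), integral_mul_const]
        simp [hU0]
    _ ≤ U * B + (2 * U * B ^ 2) * (2 * B)⁻¹ := by gcongr
    _ = 2 * U * B := by
        field_simp
        ring

end Pool.Agent.Y670.SX
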