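import Pool.Agent.Y670.SX.Mean

set_option autoImplicit false

/-!
Project SX (helper969), job SX-TAY: pointwise expansion of the low part.
-/

namespace Pool.Agent.Y670.SX

open Finset Filter Topology MeasureTheory Complex
open Pool.Agent.Y969.GP (ff ht lam FR PX cr V mB co PS)
open Pool.Agent.Y969.SM

noncomputable section

/-- the expanded factor -/
def Sx (n Z : ℕ) (T t c : ℝ) : ℂ :=
  ∑ i : Fin (n + 2), ((kg T i c * ((t - T) / T) ^ (ke i) : ℝ) : ℂ) * KK Z i (t + c)

theorem ne_last_zero (n : ℕ) : (0 : Fin (n + 2)) ≠ Fin.last (n + 1) := by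
  intro h
  have := congrArg Fin.val h
  simp at this

theorem ne_last_mid (n : ℕ) (j : Fin n) : j.castSucc.succ ≠ Fin.last (n + 1) := by
  intro h
  have := congrArg Fin.val h
  simp at this
  omega

theorem KK_congr {n : ℕ} {i j : Fin (n + 2)} (hi : i ≠ Fin.last (n + 1))
    (hj : j ≠ Fin.last (n + 1)) (Z : ℕ) (u : ℝ) : KK Z i u = KK Z j u := by
  unfold KK
  refine sum_congr rfl fun p _ => ?_
  rw [kc_ne hi, kc_ne hj]

/-- the slowly varying coefficient of `K0` -/
def dl (n : ℕ) (T t c : ℝ) : ℝ :=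
  Real.log ((T + c) / (2 * Real.pi)) + 2 * Real.eulerMascheroniConstant -
    ∑ j ∈ range n, (-((t - T) / (T + c))) ^ (j + 1) / ((j : ℝ) + 1)

theorem Sx_eq {n Z : ℕ} {T t c : ℝ} (hT : 0 < T) :
    Sx n Z T t c = (dl n T t c : ℂ) * KK Z (0 : Fin (n + 2)) (t + c) -
      KK Z (Fin.last (n + 1)) (t + c) := by
  unfold Sx
  rw [Fin.sum_univ_succ, Fin.sum_univ_castSucc]
  have h0 : kg T (0 : Fin (n + 2)) c =
      Real.log ((T + c) / (2 * Real.pi)) + 2 * Real.eulerMascheroniConstant := by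
    unfold kg
    rw [if_neg (ne_last_zero n)]
    simp
  have hk0 : ke (0 : Fin (n + 2)) = 0 := by
    unfold ke
    rw [if_neg (ne_last_zero n)]
    rfl
  have h1 : kg T (Fin.last n).succ c = -1 := by
    unfold kg
    rw [if_pos (by rfl)]
  have hk1 : ke (Fin.last n).succ = 0 := by
    unfold ke
    rw [if_pos (by rfl)]
  have h2 : ∀ j : Fin n, kg T j.castSucc.succ c * ((t - T) / T) ^ (ke j.castSucc.succ) =
      -((-((t - T) / (T + c))) ^ ((j : ℕ) + 1) / ((j : ℕ) + 1 : ℝ)) := by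
    intro j
    unfold kg ke
    rw [if_neg (ne_last_mid n j), if_neg (ne_last_mid n j), if_neg (by simp)]
    have e1 : (j.castSucc.succ : ℕ) = (j : ℕ) + 1 := by simp
    rw [e1]
    have e2 : -((t - T) / (T + c)) = -1 * ((T / (T + c)) * ((t - T) / T)) := by
      field_simp
    rw [e2, mul_pow, mul_pow]
    push_cast
    ring
  rw [h0, hk0, h1, hk1]
  simp only [h2]
  have h3 : ∀ j : Fin n, KK Z j.castSucc.succ (t + c) = KK Z (0 : Fin (n + 2)) (t + c) := fun j =>
    KK_congr (ne_last_mid n j) (ne_last_zero n) Z (t + c)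
  simp only [h3]
  rw [← sum_mul]
  have h4 : ∑ j : Fin n, ((-((-((t - T) / (T + c))) ^ ((j : ℕ) + 1) / ((j : ℕ) + 1 : ℝ)) : ℝ) : ℂ) =
      -((∑ j ∈ range n, (-((t - T) / (T + c))) ^ (j + 1) / ((j : ℝ) + 1) : ℝ) : ℂ) := by
    rw [← Complex.ofReal_sum, ← Complex.ofReal_neg]
    congr 1
    rw [Finset.sum_neg_distrib]
    congr 1
    exact (Finset.sum_range (fun j : ℕ => (-((t - T) / (T + c))) ^ (j + 1) / ((j : ℝ) + 1))).symm
  rw [h4]
  unfold dl
  have h5 : (Fin.last n).succ = Fin.last (n + 1) := rfl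
  rw [h5]
  push_cast
  ring

theorem abs_dl_le {n : ℕ} {T t c : ℝ} (hT : 0 < T) (hc : 0 ≤ c) (hx : |(t - T) / T| ≤ 1 / 2) :
    |Real.log ((t + c) / (2 * Real.pi)) + 2 * Real.eulerMascheroniConstant - dl n T t c| ≤
      2 * |(t - T) / T| ^ (n + 1) := by
  have hTc : 0 < T + c := by linarith
  have hx2 : |t - T| ≤ T / 2 := by
    rw [abs_div, abs_of_pos hT, div_le_iff₀ hT] at hx
    linarith
  have htT := abs_le.1 hx2
  have htc : 0 < t + c := by linarith [htT.1]
  set y : ℝ := -((t - T) / (T + c)) with hy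
  have hyx : |y| ≤ |(t - T) / T| := by
    rw [hy, abs_neg, abs_div, abs_div, abs_of_pos hTc, abs_of_pos hT]
    gcongr
    linarith
  have hy1 : |y| < 1 := by linarith
  have h1 := Real.abs_log_sub_add_sum_range_le hy1 n
  have h2 : 1 - y = (t + c) / (T + c) := by
    rw [hy]
    field_simp
    ring
  have h3 : Real.log (1 - y) = Real.log ((t + c) / (2 * Real.pi)) - Real.log ((T + c) / (2 * Real.pi)) := by
    rw [h2, Real.log_div htc.ne' hTc.ne', Real.log_div htc.ne' (by positivity),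
      Real.log_div hTc.ne' (by positivity)]
    ring
  have h4 : Real.log ((t + c) / (2 * Real.pi)) + 2 * Real.eulerMascheroniConstant - dl n T t c =
      ∑ i ∈ range n, y ^ (i + 1) / ((i : ℝ) + 1) + Real.log (1 - y) := by
    unfold dl
    rw [h3]
    ring
  rw [h4]
  refine h1.trans ?_
  have h5 : 1 / 2 ≤ 1 - |y| := by linarith
  calc |y| ^ (n + 1) / (1 - |y|) ≤ |y| ^ (n + 1) / (1 / 2) := by gcongr
    _ = 2 * |y| ^ (n + 1) := by ring
    _ ≤ 2 * |(t - T) / T| ^ (n + 1) := by gcongr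

/-- the difference between the low part and the expanded factor -/
theorem norm_R_le (n : ℕ) {X Z : ℕ} {T t c E : ℝ} (hT : 0 < T) (hc : 0 ≤ c)
    (hx : |(t - T) / T| ≤ 1 / 2) (hE0 : 0 ≤ E)
    (hE : ∀ p ∈ FR Z, |√(ht p) * cr X p (t + c) - (Real.log ((t + c) / (2 * Real.pi * ht p)) +
      2 * Real.eulerMascheroniConstant)| ≤ E) :
    ‖PL X Z (t + c) - Sx n Z T t c‖ ≤
      2 * |(t - T) / T| ^ (n + 1) * ‖KK Z (0 : Fin (n + 2)) (t + c)‖ + (Z : ℝ) ^ 2 * E := by
  have hx2 : |t - T| ≤ T / 2 := by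
    rw [abs_div, abs_of_pos hT, div_le_iff₀ hT] at hx
    linarith
  have htT := abs_le.1 hx2
  have htc : 0 < t + c := by linarith [htT.1]
  set D : ℝ := Real.log ((t + c) / (2 * Real.pi)) + 2 * Real.eulerMascheroniConstant - dl n T t c
    with hD
  have h1 : PL X Z (t + c) - Sx n Z T t c = (D : ℂ) * KK Z (0 : Fin (n + 2)) (t + c) +
      ∑ p ∈ FR Z, (((√(ht p))⁻¹ * (√(ht p) * cr X p (t + c) -
        (Real.log ((t + c) / (2 * Real.pi * ht p)) + 2 * Real.eulerMascheroniConstant)) : ℝ) : ℂ) *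
          cexp (I * (((t + c) * lam p : ℝ) : ℂ)) := by
    rw [Sx_eq hT]
    unfold PL KK
    rw [mul_sum, mul_sum, ← sum_sub_distrib, ← sum_sub_distrib, ← sum_add_distrib]
    refine sum_congr rfl fun p hp => ?_
    obtain ⟨_, _, _, _, hp1, _⟩ := mem_FR hp
    have hp0 : 0 < ht p := by linarith
    have hs : √(ht p) ≠ 0 := (Real.sqrt_pos.2 hp0).ne'
    rw [kc_ne (ne_last_zero n), kc_last]
    have h2 : Real.log ((t + c) / (2 * Real.pi * ht p)) =
        Real.log ((t + c) / (2 * Real.pi)) - Real.log (ht p) := by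
      rw [← Real.log_div (by positivity) hp0.ne']
      congr 1
      field_simp
    have h3 : cr X p (t + c) = D * (√(ht p))⁻¹ + dl n T t c * (√(ht p))⁻¹ -
        (√(ht p))⁻¹ * Real.log (ht p) + (√(ht p))⁻¹ * (√(ht p) * cr X p (t + c) -
        (Real.log ((t + c) / (2 * Real.pi * ht p)) + 2 * Real.eulerMascheroniConstant)) := by
      rw [h2, hD]
      field_simp
      ring
    rw [show ((cr X p (t + c) : ℝ) : ℂ) = ((D * (√(ht p))⁻¹ + dl n T t c * (√(ht p))⁻¹ -
        (√(ht p))⁻¹ * Real.log (ht p) + (√(ht p))⁻¹ * (√(ht p) * cr X p (t + c) -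
        (Real.log ((t + c) / (2 * Real.pi * ht p)) + 2 * Real.eulerMascheroniConstant)) : ℝ) : ℂ) from
        congrArg _ h3]
    push_cast
    ring
  rw [h1]
  refine (norm_add_le _ _).trans (add_le_add ?_ ?_)
  · rw [norm_mul, Complex.norm_real, Real.norm_eq_abs]
    exact mul_le_mul_of_nonneg_right (abs_dl_le hT hc hx) (norm_nonneg _)
  · calc _ ≤ ∑ p ∈ FR Z, ‖(((√(ht p))⁻¹ * (√(ht p) * cr X p (t + c) -
        (Real.log ((t + c) / (2 * Real.pi * ht p)) + 2 * Real.eulerMascheroniConstant)) : ℝ) : ℂ) *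
          cexp (I * (((t + c) * lam p : ℝ) : ℂ))‖ := norm_sum_le _ _
      _ ≤ ∑ _p ∈ FR Z, E := by
        refine sum_le_sum fun p hp => ?_
        obtain ⟨_, _, _, _, hp1, _⟩ := mem_FR hp
        rw [norm_mul, norm_ex, mul_one, Complex.norm_real, Real.norm_eq_abs, abs_mul]
        have hs : |(√(ht p))⁻¹| ≤ 1 := by
          rw [abs_of_nonneg (by positivity)]
          exact inv_le_one_of_one_le₀ (Real.one_le_sqrt.2 hp1)
        calc _ ≤ 1 * E := mul_le_mul hs (hE p hp) (abs_nonneg _) zero_le_one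
          _ = E := one_mul E
      _ = (FR Z).card * E := by rw [sum_const, nsmul_eq_mul]
      _ ≤ (Z : ℝ) ^ 2 * E := mul_le_mul_of_nonneg_right (card_FR Z) hE0

/-- crude bound of the low part -/
theorem norm_PL_le {X Z : ℕ} {u E : ℝ} (hE0 : 0 ≤ E)
    (hE : ∀ p ∈ FR Z, |√(ht p) * cr X p u| ≤ E) : ‖PL X Z u‖ ≤ (Z : ℝ) ^ 2 * E := by
  unfold PL
  calc _ ≤ ∑ p ∈ FR Z, ‖(cr X p u : ℂ) * cexp (I * ((u * lam p : ℝ) : ℂ))‖ := norm_sum_le _ _
    _ ≤ ∑ _p ∈ FR Z, E := by
        refine sum_le_sum fun p hp => ?_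
        obtain ⟨_, _, _, _, hp1, _⟩ := mem_FR hp
        rw [norm_mul, norm_ex, mul_one, Complex.norm_real, Real.norm_eq_abs]
        have h1 := hE p hp
        rw [abs_mul, abs_of_nonneg (Real.sqrt_nonneg _)] at h1
        have h2 : 1 ≤ √(ht p) := Real.one_le_sqrt.2 hp1
        have h3 := abs_nonneg (cr X p u)
        nlinarith
    _ = (FR Z).card * E := by rw [sum_const, nsmul_eq_mul]
    _ ≤ (Z : ℝ) ^ 2 * E := mul_le_mul_of_nonneg_right (card_FR Z) hE0

/-! ### measurability -/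

theorem measurable_V : Measurable V := by
  have hi : Integrable fun v : ℝ => Real.exp (-v ^ 2 / 4) := by
    have h := integrable_exp_neg_mul_sq (show (0:ℝ) < 1 / 4 by norm_num)
    refine h.congr (ae_of_all _ fun v => ?_)
    simp only
    congr 1
    ring
  have hg : Antitone fun y : ℝ => ∫ v in Set.Ioi y, Real.exp (-v ^ 2 / 4) := by
    intro a b hab
    refine setIntegral_mono_set hi.integrableOn (ae_of_all _ fun v => (Real.exp_pos _).le) ?_
    exact (Set.Ioi_subset_Ioi hab).eventuallyLE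
  exact (hg.measurable.comp Real.measurable_log).const_mul _

theorem measurable_cr (X : ℕ) (p : ℕ × ℕ) : Measurable (cr X p) := by
  have h : cr X p = fun u => ∑ g ∈ (Finset.Icc 1 X).filter (fun g => g * g * (p.1 * p.2) ≤ X),
      co (g * p.1, g * p.2) u := rfl
  rw [h]
  refine Finset.measurable_fun_sum _ fun g _ => ?_
  have h2 : co (g * p.1, g * p.2) = fun u => 2 * (√(ht (g * p.1, g * p.2)))⁻¹ *
      V (2 * Real.pi * ht (g * p.1, g * p.2) / u) := rfl
  rw [h2]
  exact (measurable_V.comp (measurable_const.div measurable_id)).const_mul _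

theorem measurable_PL (X Z : ℕ) : Measurable (PL X Z) := by
  have h : PL X Z = fun u => ∑ p ∈ FR Z, (cr X p u : ℂ) * cexp (I * ((u * lam p : ℝ) : ℂ)) := rfl
  rw [h]
  refine Finset.measurable_fun_sum _ fun p _ => ?_
  refine (Complex.measurable_ofReal.comp (measurable_cr X p)).mul ?_
  exact Continuous.measurable (by fun_prop)

theorem measurable_kg {n : ℕ} (T : ℝ) (i : Fin (n + 2)) : Measurable (kg T i) := by
  by_cases h1 : i = Fin.last (n + 1)
  · have : kg T i = fun _ => -1 := by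
      funext c
      unfold kg
      rw [if_pos h1]
    rw [this]
    exact measurable_const
  · by_cases h2 : (i : ℕ) = 0
    · have : kg T i = fun c => Real.log ((T + c) / (2 * Real.pi)) +
          2 * Real.eulerMascheroniConstant := by
        funext c
        unfold kg
        rw [if_neg h1, if_pos h2]
      rw [this]
      fun_prop
    · have : kg T i = fun c => (-1) ^ ((i : ℕ) + 1) * (T / (T + c)) ^ (i : ℕ) / (i : ℕ) := by
        funext c
        unfold kg
        rw [if_neg h1, if_neg h2]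
      rw [this]
      fun_prop

theorem measurable_Sx (n Z : ℕ) (T : ℝ) : Measurable fun q : ℝ × ℝ => Sx n Z T q.1 q.2 := by
  unfold Sx
  refine Finset.measurable_fun_sum _ fun i _ => ?_
  refine (Complex.measurable_ofReal.comp ?_).mul ?_
  · exact ((measurable_kg T i).comp measurable_snd).mul (Continuous.measurable (by fun_prop))
  · exact ((continuous_KK i Z).comp (by fun_prop : Continuous fun q : ℝ × ℝ => q.1 + q.2)).measurable

theorem measurable_Sx' (n Z : ℕ) (T t : ℝ) : Measurable (Sx n Z T t) := by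
  have h0 : Measurable fun c : ℝ => (t, c) := by fun_prop
  have h := (measurable_Sx n Z T).comp h0
  exact h

/-! ### bounds of the expanded factor -/

theorem abs_kg_le {n : ℕ} (i : Fin (n + 2)) {T c L : ℝ} (hT : 2 * Real.pi ≤ T) (hc : 0 ≤ c)
    (hL : Real.log ((T + c) / (2 * Real.pi)) + 2 * Real.eulerMascheroniConstant ≤ 2 * L) :
    |kg T i c| ≤ if (i : ℕ) = 0 then 2 * L else 1 := by
  have hpi := Real.pi_pos
  have hT0 : 0 < T := by linarith
  by_cases h1 : i = Fin.last (n + 1)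
  · have h0 : (i : ℕ) ≠ 0 := by
      rw [h1]
      simp
    unfold kg
    rw [if_pos h1, if_neg h0]
    simp
  · by_cases h2 : (i : ℕ) = 0
    · unfold kg
      rw [if_neg h1, if_pos h2, if_pos h2]
      have h3 : 0 ≤ Real.log ((T + c) / (2 * Real.pi)) := by
        refine Real.log_nonneg ?_
        rw [le_div_iff₀ (by positivity)]
        linarith
      have h4 : 0 ≤ Real.eulerMascheroniConstant :=
        (lt_trans (by norm_num) Real.one_half_lt_eulerMascheroniConstant).le
      rw [abs_of_nonneg (by positivity)]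
      exact hL
    · unfold kg
      rw [if_neg h1, if_neg h2, if_neg h2]
      have h3 : |T / (T + c)| ≤ 1 := by
        rw [abs_of_nonneg (by positivity), div_le_one (by linarith)]
        linarith
      have h4 : (1 : ℝ) ≤ ((i : ℕ) : ℝ) := by exact_mod_cast Nat.one_le_iff_ne_zero.2 h2
      rw [abs_div, abs_mul, abs_pow, abs_pow, abs_neg, abs_one, one_pow, one_mul,
        abs_of_nonneg (show (0:ℝ) ≤ ((i : ℕ) : ℝ) by positivity), div_le_one (by linarith)]
      exact (pow_le_one₀ (abs_nonneg _) h3).trans h4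

theorem norm_Sx_le {n Z : ℕ} {T t c L b : ℝ} (hT : 2 * Real.pi ≤ T) (hc : 0 ≤ c)
    (hL : Real.log ((T + c) / (2 * Real.pi)) + 2 * Real.eulerMascheroniConstant ≤ 2 * L)
    (hb : ∀ i : Fin (n + 2), |(t - T) / T| ^ (ke i) ≤ b) :
    ‖Sx n Z T t c‖ ≤ ∑ i : Fin (n + 2), (if (i : ℕ) = 0 then 2 * L else 1) * b * ‖KK Z i (t + c)‖ := by
  unfold Sx
  refine (norm_sum_le _ _).trans (sum_le_sum fun i _ => ?_)
  rw [norm_mul, Complex.norm_real, Real.norm_eq_abs, abs_mul, abs_pow]
  have h1 := abs_kg_le i hT hc hL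
  exact mul_le_mul_of_nonneg_right (mul_le_mul h1 (hb i) (by positivity)
    ((abs_nonneg _).trans h1)) (norm_nonneg _)

end

end Pool.Agent.Y670.SX
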