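import Pool.Agent.Y670.SX.Core

set_option autoImplicit false

/-!
Project SX (helper969), job SX-TAY: Taylor expansion of the low part (`S_TAY`).
-/

namespace Pool.Agent.Y670.SX

open Finset Filter Topology MeasureTheory Complex
open Pool.Agent.Y969.GP (ff ht lam FR PX cr V mB co PS)
open Pool.Agent.H306R2.SM (om cl)
open Pool.Agent.H262R4.TM (Rng)
open Pool.Agent.Y969.SM

theorem ev_log (c : ℝ) (m : ℕ) {s : ℝ} (hs : 0 < s) :
    ∀ᶠ T : ℝ in atTop, c * Real.log T ^ m ≤ T ^ s := by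
  have h := (isLittleO_log_rpow_rpow_atTop (m : ℝ) hs).bound
    (show (0:ℝ) < 1 / (|c| + 1) by positivity)
  filter_upwards [h, eventually_ge_atTop 1] with T hT h1
  have hL : 0 ≤ Real.log T := Real.log_nonneg h1
  rw [Real.rpow_natCast, Real.norm_of_nonneg (by positivity),
    Real.norm_of_nonneg (Real.rpow_nonneg (by linarith) _)] at hT
  have h2 : 0 < |c| + 1 := by positivity
  calc c * Real.log T ^ m ≤ (|c| + 1) * Real.log T ^ m := by
        gcongr
        linarith [le_abs_self c]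
    _ ≤ (|c| + 1) * (1 / (|c| + 1) * T ^ s) := by gcongr
    _ = T ^ s := by field_simp

theorem omx_all (h2 : S_OMX) (N : ℕ) : ∃ K : ℝ, 0 < K ∧ ∀ᶠ T : ℝ in atTop, ∀ κ : ℕ, Rng T κ →
    ∀ t : ℝ, 0 < t → ∀ e ≤ N, |(t - T) / T| ^ e * om (2 * κ) ((2 * κ : ℕ) / T) t ≤
      K / Real.log T ^ e * om κ (κ / T) t := by
  induction N with
  | zero =>
    obtain ⟨C, hC, h⟩ := h2.1 0
    refine ⟨C, hC, ?_⟩
    filter_upwards [h] with T hT κ hκ t ht e he
    obtain rfl := Nat.le_zero.1 he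
    exact hT κ hκ t ht
  | succ N ih =>
    obtain ⟨K, hK, h⟩ := ih
    obtain ⟨C, hC, h'⟩ := h2.1 (N + 1)
    refine ⟨K + C, by positivity, ?_⟩
    filter_upwards [h, h', eventually_ge_atTop 1] with T hT hT' h1 κ hκ t ht e he
    have hL : 0 ≤ Real.log T := Real.log_nonneg h1
    have h0 : 0 ≤ om κ (κ / T) t := om_nn _ (div_nonneg (Nat.cast_nonneg _) (by linarith)) ht.le
    rcases Nat.lt_or_ge N e with h3 | h3
    · obtain rfl : e = N + 1 := by omega
      refine (hT' κ hκ t ht).trans ?_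
      gcongr
      linarith
    · refine (hT κ hκ t ht e h3).trans ?_
      gcongr
      linarith

theorem omx_far (h2 : S_OMX) (N B : ℕ) : ∀ᶠ T : ℝ in atTop, ∀ κ : ℕ, Rng T κ →
    ∀ t : ℝ, 0 < t → T / 2 ≤ |t - T| → |(t - T) / T| ^ N * om (2 * κ) ((2 * κ : ℕ) / T) t ≤
      om κ (κ / T) t / T ^ B := by
  obtain ⟨C, hC, h⟩ := h2.1 (2 * N)
  have h' := h2.2 ((2 * B + 1 : ℕ) : ℝ)
  filter_upwards [h, h', eventually_ge_atTop 3, eventually_ge_atTop C] with T hT hT' h3 hCT κ hκ t ht ht'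
  have hT0 : 0 < T := by linarith
  have h0 : 0 ≤ om κ (κ / T) t := om_nn _ (div_nonneg (Nat.cast_nonneg _) hT0.le) ht.le
  have h02 : 0 ≤ om (2 * κ) ((2 * κ : ℕ) / T) t :=
    om_nn _ (div_nonneg (Nat.cast_nonneg _) hT0.le) ht.le
  have hL : 1 ≤ Real.log T := by
    rw [Real.le_log_iff_exp_le hT0]
    have := Real.exp_one_lt_d9
    linarith
  have a1 := hT κ hκ t ht
  have a2 := hT' κ hκ t ht ht'
  rw [Real.rpow_neg hT0.le, Real.rpow_natCast] at a2
  have a3 : C / Real.log T ^ (2 * N) ≤ T :=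
    (div_le_self hC.le (one_le_pow₀ hL)).trans hCT
  have a4 : |(t - T) / T| ^ (2 * N) * om (2 * κ) ((2 * κ : ℕ) / T) t ≤ T * om κ (κ / T) t :=
    a1.trans (mul_le_mul_of_nonneg_right a3 h0)
  rw [← pow_le_pow_iff_left₀ (by positivity) (by positivity) (two_ne_zero)]
  calc (|(t - T) / T| ^ N * om (2 * κ) ((2 * κ : ℕ) / T) t) ^ 2
      = (|(t - T) / T| ^ (2 * N) * om (2 * κ) ((2 * κ : ℕ) / T) t) *
        om (2 * κ) ((2 * κ : ℕ) / T) t := by ring
    _ ≤ (T * om κ (κ / T) t) * ((T ^ (2 * B + 1))⁻¹ * om κ (κ / T) t) := by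
        refine mul_le_mul a4 a2 h02 (by positivity)
    _ = (om κ (κ / T) t / T ^ B) ^ 2 := by
        field_simp
        ring

/-- **SX-TAY** -/
theorem t_TAY (k : ℕ) (h1 : S_CRA) (h2 : S_OMX) (h3 : S_ORT) (h4 : S_FA k) (h5 : S_FB k) :
    S_TAY k := by
  intro n A hA
  obtain ⟨C4, hC4, hFA⟩ := h4
  obtain ⟨K, hK, hOM⟩ := omx_all h2 (n * n + n + 1)
  refine ⟨1 / 32, (9 * K * n * (8 * n + 25) ^ (n - 1) + 1) * C4, by norm_num, by positivity, ?_⟩
  intro σ hσ hσ1 ε hε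
  obtain ⟨CC, hCC, hCRA⟩ := h1 (ε / 2) (by positivity)
  filter_upwards [hFA, hOM, omx_far h2 (n * n) (n + 1), h5, eventually_ge_atTop 8,
    eventually_ge_atTop (8 + A), eventually_ge_atTop (2 * Real.pi),
    ev_log (CC * 8 ^ (1 / 4 : ℝ)) n (show (0:ℝ) < 1 / 16 by norm_num),
    ev_log (2 * (n + 2)) 1 (show (0:ℝ) < 1 / 2 by norm_num),
    ev_log (2 * 4 ^ (n * n)) 1 (show (0:ℝ) < 1 by norm_num),
    ev_log 8 0 (show (0:ℝ) < 1 / 2 by norm_num),
    ev_log ((8 + A) ^ (1 + ε / 2)) 0 (show (0:ℝ) < ε / 2 by positivity),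
    ev_log 5 1 (show (0:ℝ) < 1 / 2 by norm_num),
    Real.tendsto_log_atTop.eventually_ge_atTop (Real.log (1 + A) + 2),
    Real.tendsto_log_atTop.eventually_ge_atTop 1]
    with T hFA hOM hOF hFB hT8 hTA hTpi v1 v2 v3 v4 v5 v6 v7 v8 κ hκ _ U X Z hTU hUA hX hZ
  have hT0 : 0 < T := by linarith
  have hT1 : 1 ≤ T := by linarith
  have hpi := Real.pi_gt_three
  set L := Real.log T with hL
  obtain ⟨_, hJ, _, _, hJ4, _⟩ := hFA κ hκ
  have hγ0 : 0 < Real.eulerMascheroniConstant :=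
    lt_trans (by norm_num) Real.one_half_lt_eulerMascheroniConstant
  have hγ1 : Real.eulerMascheroniConstant < 2 / 3 := Real.eulerMascheroniConstant_lt_two_thirds
  rw [pow_zero, mul_one] at v4 v5
  rw [pow_one] at v2 v3 v6
  rw [Real.rpow_one] at v3
  -- the size of `Z`
  have hTσ : 1 ≤ T ^ σ := Real.one_le_rpow hT1 hσ.le
  have hZ1 : 1 ≤ Z := by
    rw [hZ]
    exact Nat.le_floor (by exact_mod_cast hTσ)
  have hz1 : (1 : ℝ) ≤ Z := by exact_mod_cast hZ1
  have hzσ : (Z : ℝ) ≤ T ^ (1 / 32 : ℝ) := by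
    calc (Z : ℝ) ≤ T ^ σ := by
          rw [hZ]
          exact Nat.floor_le (by linarith)
      _ ≤ T ^ (1 / 32 : ℝ) := Real.rpow_le_rpow_of_exponent_le hT1 hσ1
  have hz2 : (Z : ℝ) ^ 2 ≤ T ^ (1 / 16 : ℝ) := by
    calc (Z : ℝ) ^ 2 ≤ (T ^ (1 / 32 : ℝ)) ^ 2 := by gcongr
      _ = T ^ (1 / 16 : ℝ) := by
          rw [← Real.rpow_natCast, ← Real.rpow_mul hT0.le]
          norm_num
  have hz3 : (Z : ℝ) ^ 3 ≤ T ^ (1 / 2 : ℝ) := by
    calc (Z : ℝ) ^ 3 ≤ (T ^ (1 / 32 : ℝ)) ^ 3 := by gcongr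
      _ = T ^ (3 / 32 : ℝ) := by
          rw [← Real.rpow_natCast, ← Real.rpow_mul hT0.le]
          norm_num
      _ ≤ T ^ (1 / 2 : ℝ) := Real.rpow_le_rpow_of_exponent_le hT1 (by norm_num)
  have hhalf : T ^ (1 / 2 : ℝ) * T ^ (1 / 2 : ℝ) = T := by
    rw [← Real.rpow_add hT0]
    norm_num
  have hh0 : 0 < T ^ (1 / 2 : ℝ) := Real.rpow_pos_of_pos hT0 _
  have hz2' : (Z : ℝ) ^ 2 ≤ T ^ (1 / 2 : ℝ) :=
    hz2.trans (Real.rpow_le_rpow_of_exponent_le hT1 (by norm_num))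
  -- the error of the coefficients
  set E : ℝ := CC * (T / 8) ^ (-(1 / 4) : ℝ) with hEdef
  have hE0 : 0 ≤ E := by positivity
  have hEval : E = CC * 8 ^ (1 / 4 : ℝ) * T ^ (-(1 / 4) : ℝ) := by
    rw [hEdef, Real.div_rpow hT0.le (by norm_num), Real.rpow_neg (by norm_num : (0:ℝ) ≤ 8)]
    field_simp
  have hE1 : (Z : ℝ) ^ 2 * E * L ^ n ≤ 1 := by
    calc (Z : ℝ) ^ 2 * E * L ^ n = (Z : ℝ) ^ 2 * T ^ (-(1 / 4) : ℝ) *
          (CC * 8 ^ (1 / 4 : ℝ) * L ^ n) := by
          rw [hEval]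
          ring
      _ ≤ T ^ (1 / 16 : ℝ) * T ^ (-(1 / 4) : ℝ) * T ^ (1 / 16 : ℝ) := by gcongr
      _ = T ^ (-(1 / 8) : ℝ) := by
          rw [← Real.rpow_add hT0, ← Real.rpow_add hT0]
          norm_num
      _ ≤ 1 := Real.rpow_le_one_of_one_le_of_nonpos hT1 (by norm_num)
  have hE1' : E ≤ 1 := by
    have : 1 * E * 1 ≤ (Z : ℝ) ^ 2 * E * L ^ n := by
      gcongr
      · exact one_le_pow₀ hz1
      · exact one_le_pow₀ v8
    linarith
  have hE : ∀ u : ℝ, T / 8 ≤ u → u ≤ 8 * T + U → ∀ p ∈ FR Z, |√(ht p) * cr X p u -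
      (Real.log (u / (2 * Real.pi * ht p)) + 2 * Real.eulerMascheroniConstant)| ≤ E := by
    intro u hu hu' p hp
    obtain ⟨p1, p2, _, _, p3, p4⟩ := mem_FR hp
    have hu1 : 1 ≤ u := by linarith
    have huX : u ^ (1 + ε / 2) ≤ (X : ℝ) := by
      calc u ^ (1 + ε / 2) ≤ ((8 + A) * T) ^ (1 + ε / 2) := by
            refine Real.rpow_le_rpow (by linarith) ?_ (by positivity)
            linarith
        _ = (8 + A) ^ (1 + ε / 2) * T ^ (1 + ε / 2) :=
            Real.mul_rpow (by linarith) hT0.le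
        _ ≤ T ^ (ε / 2) * T ^ (1 + ε / 2) := by gcongr
        _ = T ^ (1 + ε) := by
            rw [← Real.rpow_add hT0]
            congr 1
            ring
        _ ≤ X := hX
    have huh : ht p ≤ u ^ (1 / 2 : ℝ) := by
      rw [← Real.sqrt_eq_rpow]
      refine Real.le_sqrt_of_sq_le ?_
      calc ht p ^ 2 ≤ (Z : ℝ) ^ 2 := by gcongr
        _ ≤ T ^ (1 / 2 : ℝ) := hz2'
        _ ≤ T / 8 := by
            rw [le_div_iff₀ (by norm_num)]
            calc T ^ (1 / 2 : ℝ) * 8 ≤ T ^ (1 / 2 : ℝ) * T ^ (1 / 2 : ℝ) := by gcongr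
              _ = T := hhalf
        _ ≤ u := hu
    refine (hCRA X p u p1 p2 hu1 huX huh).trans ?_
    refine mul_le_mul_of_nonneg_left ?_ hCC.le
    exact Real.rpow_le_rpow_of_nonpos (by positivity) hu (by norm_num)
  have hP : ∀ u : ℝ, T / 8 ≤ u → u ≤ 8 * T + U → ∀ p ∈ FR Z,
      |√(ht p) * cr X p u| ≤ T ^ (1 / 2 : ℝ) := by
    intro u hu hu' p hp
    obtain ⟨p1, p2, _, _, p3, p4⟩ := mem_FR hp
    have hu0 : 0 < u := by linarith
    have a1 := hE u hu hu' p hp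
    have a2 : |Real.log (u / (2 * Real.pi * ht p))| ≤ 2 * L := by
      have b1 : u / (2 * Real.pi * ht p) ≤ T * T := by
        calc u / (2 * Real.pi * ht p) ≤ u := by
              refine div_le_self hu0.le ?_
              nlinarith
          _ ≤ T * T := by nlinarith
      have b2 : 1 ≤ T * T * (u / (2 * Real.pi * ht p)) := by
        rw [← mul_div_assoc, one_le_div (by positivity)]
        have b3 : ht p ≤ T ^ (1 / 2 : ℝ) := by
          have : (Z : ℝ) ≤ (Z : ℝ) ^ 2 := by nlinarith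
          linarith
        have b4 : T ^ (1 / 2 : ℝ) ≤ T := by nlinarith
        have b5 := Real.pi_lt_four
        calc 2 * Real.pi * ht p ≤ 2 * 4 * T := by
              have : ht p ≤ T := b3.trans b4
              gcongr
          _ ≤ T * T * (T / 8) := by nlinarith [mul_pos hT0 hT0]
          _ ≤ T * T * u := by gcongr
      have b0 : 0 < u / (2 * Real.pi * ht p) := by positivity
      rw [abs_le]
      constructor
      · have := Real.log_nonneg b2
        rw [Real.log_mul (by positivity) b0.ne', Real.log_mul hT0.ne' hT0.ne'] at this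
        linarith
      · have := Real.log_le_log b0 b1
        rw [Real.log_mul hT0.ne' hT0.ne'] at this
        linarith
    have a3 : |√(ht p) * cr X p u| ≤ |√(ht p) * cr X p u -
      (Real.log (u / (2 * Real.pi * ht p)) + 2 * Real.eulerMascheroniConstant)| +
        (|Real.log (u / (2 * Real.pi * ht p))| + |2 * Real.eulerMascheroniConstant|) := by
      have := abs_add_le (√(ht p) * cr X p u -
        (Real.log (u / (2 * Real.pi * ht p)) + 2 * Real.eulerMascheroniConstant))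
        (Real.log (u / (2 * Real.pi * ht p)) + 2 * Real.eulerMascheroniConstant)
      rw [sub_add_cancel] at this
      exact this.trans (add_le_add le_rfl (abs_add_le _ _))
    have a4 : |2 * Real.eulerMascheroniConstant| ≤ 2 := by
      rw [abs_of_pos (by positivity)]
      linarith
    linarith
  have hy : Hy k n κ X Z T U L E (T ^ (1 / 2 : ℝ)) K := {
    ort := h3
    hT := hTpi
    hL1 := v8
    hZ := hZ1
    hZU := by
      calc 4 * (Z : ℝ) ^ 3 ≤ T ^ (1 / 2 : ℝ) * T ^ (1 / 2 : ℝ) := by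
            gcongr
            linarith
        _ ≤ U := by rw [hhalf]; exact hTU
    hZL := by
      refine Real.log_le_log (by linarith) (hzσ.trans ?_)
      calc T ^ (1 / 32 : ℝ) ≤ T ^ (1 : ℝ) := Real.rpow_le_rpow_of_exponent_le hT1 (by norm_num)
        _ = T := Real.rpow_one T
    hLc := by
      intro c hc hcU
      have a1 : (T + c) / (2 * Real.pi) ≤ (1 + A) * T := by
        rw [div_le_iff₀ (by positivity)]
        have : T + c ≤ (1 + A) * T := by linarith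
        have h0 : 0 ≤ (1 + A) * T := by positivity
        nlinarith
      have a2 := Real.log_le_log (by positivity) a1
      rw [Real.log_mul (by linarith) hT0.ne'] at a2
      linarith
    hE0 := hE0
    hE1 := hE1
    hE := hE
    hP0 := hh0.le
    hP1 := by
      calc (Z : ℝ) ^ 2 * T ^ (1 / 2 : ℝ) ≤ T ^ (1 / 2 : ℝ) * T ^ (1 / 2 : ℝ) := by gcongr
        _ = T := hhalf
    hP := hP
    hS := by
      calc (n + 2) * (2 * L) * (Z : ℝ) ^ 3 = (2 * (n + 2) * L) * (Z : ℝ) ^ 3 := by ring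
        _ ≤ T ^ (1 / 2 : ℝ) * T ^ (1 / 2 : ℝ) := by gcongr
        _ = T := hhalf
    hF := hFB.1
    hJ := hJ
    hK := hK
    h1 := hOM κ hκ
    h2 := hOF κ hκ
    hA := v3 }
  refine hy.main.trans ?_
  have hU0 : 0 ≤ U := by linarith
  have hL0 : 0 < L := by linarith
  calc (∫ t in Set.Ioi (0:ℝ), om κ (κ / T) t * |F0 k T t|) *
        (U ^ n * ((9 * K * n * (8 * n + 25) ^ (n - 1) + 1) * (L ^ n / L)))
      ≤ (C4 * L ^ 4) * (U ^ n * ((9 * K * n * (8 * n + 25) ^ (n - 1) + 1) * (L ^ n / L))) := by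
        gcongr
    _ = (9 * K * n * (8 * n + 25) ^ (n - 1) + 1) * C4 * (U ^ n * L ^ (n + 3)) := by
        field_simp
        ring

end Pool.Agent.Y670.SX
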